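import Pool.Agent.W459.BS.Lower

set_option autoImplicit false

open scoped Topology Real
open MvPolynomial

namespace Pool.Agent.W459.BS

/-- the torus integrals of `a g F^s` at `s = s1` vanish -/
def Good (c : ℂ) (g : (Fin 2 → ℂ) → ℂ) : Prop :=
  (∀ᶠ x in 𝓝 (0 : Fin 2 → ℂ), (∏ j, Fc c j x) ≠ 0 → AnalyticAt ℂ g x) ∧
  ∀ a : (Fin 2 → ℂ) → ℂ, AnalyticAt ℂ a 0 → ∀ᶠ ρ₂ in 𝓝[>] (0 : ℝ), ∀ᶠ ρ₁ in 𝓝[>] (0 : ℝ),
    J ρ₁ ρ₂ (fun x => a x * g x * Phi c x) = 0

theorem torus_pt {ρ₁ ρ₂ : ℝ} (h1 : 0 < ρ₁) (h2 : 0 < ρ₂) {x : Fin 2 → ℂ} (hx0 : ‖x 0‖ = ρ₁)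
    (hx1 : ‖x 1‖ = ρ₂) : x 0 ≠ 0 ∧ x 1 ≠ 0 := by
  constructor
  · intro h; rw [h, norm_zero] at hx0; linarith
  · intro h; rw [h, norm_zero] at hx1; linarith

theorem prod_ne {c : ℂ} {x : Fin 2 → ℂ} (h0 : x 0 ≠ 0) (h1 : x 1 ≠ 0) (hw : ‖wf c x - 1‖ < 1) :
    (∏ j, Fc c j x) ≠ 0 := by
  rw [prod_Fc]
  exact mul_ne_zero (mul_ne_zero h0 h1) (fc_ne c x hw)

theorem Good.add {c : ℂ} {g h : (Fin 2 → ℂ) → ℂ} (hg : Good c g) (hh : Good c h) :
    Good c (fun x => g x + h x) := by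
  refine ⟨?_, fun a ha => ?_⟩
  · filter_upwards [hg.1, hh.1] with x h1 h2 hx
    exact (h1 hx).add (h2 hx)
  · filter_upwards [hg.2 a ha, hh.2 a ha, near c (ha.eventually_analyticAt.and (hg.1.and hh.1))]
      with ρ₂ k1 k2 k3
    filter_upwards [k1, k2, k3] with ρ₁ j1 j2 j3
    obtain ⟨p1, p2, hP, hw⟩ := j3
    have hint : ∀ u : (Fin 2 → ℂ) → ℂ, (∀ x : Fin 2 → ℂ, ‖x 0‖ = ρ₁ → ‖x 1‖ = ρ₂ →
        AnalyticAt ℂ u x) → TorusIntegrable (fun x => a x * u x * Phi c x) 0 ![ρ₁, ρ₂] := by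
      intro u hu
      refine torusInt p1.le p2.le (fun x hx0 hx1 => ?_)
      obtain ⟨q0, q1⟩ := torus_pt p1 p2 hx0 hx1
      exact (((hP x hx0.le hx1.le).1.mul (hu x hx0 hx1)).mul
        (analyticAt_Phi c x q0 q1 (hw x hx0.le hx1))).continuousAt
    have hgx : ∀ x : Fin 2 → ℂ, ‖x 0‖ = ρ₁ → ‖x 1‖ = ρ₂ → AnalyticAt ℂ g x := fun x hx0 hx1 =>
      (hP x hx0.le hx1.le).2.1 (prod_ne (torus_pt p1 p2 hx0 hx1).1 (torus_pt p1 p2 hx0 hx1).2
        (hw x hx0.le hx1))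
    have hhx : ∀ x : Fin 2 → ℂ, ‖x 0‖ = ρ₁ → ‖x 1‖ = ρ₂ → AnalyticAt ℂ h x := fun x hx0 hx1 =>
      (hP x hx0.le hx1.le).2.2 (prod_ne (torus_pt p1 p2 hx0 hx1).1 (torus_pt p1 p2 hx0 hx1).2
        (hw x hx0.le hx1))
    have : J ρ₁ ρ₂ (fun x => a x * (g x + h x) * Phi c x) =
        J ρ₁ ρ₂ (fun x => a x * g x * Phi c x) + J ρ₁ ρ₂ (fun x => a x * h x * Phi c x) := by
      unfold J
      rw [← torusIntegral_add (hint g hgx) (hint h hhx)]
      congr 1
      funext x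
      ring
    rw [this, j1, j2, add_zero]

theorem Good.mul_fun {c : ℂ} {g a : (Fin 2 → ℂ) → ℂ} (ha : AnalyticAt ℂ a 0) (hg : Good c g) :
    Good c (fun x => a x * g x) := by
  refine ⟨?_, fun a' ha' => ?_⟩
  · filter_upwards [hg.1, ha.eventually_analyticAt] with x h1 h2 hx
    exact h2.mul (h1 hx)
  · have := hg.2 (fun x => a' x * a x) (ha'.mul ha)
    filter_upwards [this] with ρ₂ k
    filter_upwards [k] with ρ₁ j
    rw [← j]
    congr 1
    funext x
    ring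

theorem Good.congr {c : ℂ} {g h : (Fin 2 → ℂ) → ℂ}
    (hgh : ∀ᶠ x in 𝓝 (0 : Fin 2 → ℂ), (∏ j, Fc c j x) ≠ 0 → g x = h x) (hg : Good c g) :
    Good c h := by
  have hcont : Continuous (fun x => ∏ j, Fc c j x) := by
    simp only [prod_Fc]
    exact ((continuous_apply 0).mul (continuous_apply 1)).mul
      (continuous_iff_continuousAt.2 fun x => (analyticAt_fc c x).continuousAt)
  refine ⟨?_, fun a ha => ?_⟩
  · filter_upwards [hg.1, hgh.eventually_nhds] with x h1 h2 hx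
    refine (h1 hx).congr ?_
    have h3 : ∀ᶠ y in 𝓝 x, (∏ j, Fc c j y) ≠ 0 := hcont.continuousAt.eventually_ne hx
    filter_upwards [h2, h3] with y h4 h5
    exact h4 h5
  · filter_upwards [hg.2 a ha, near c hgh] with ρ₂ k1 k2
    filter_upwards [k1, k2] with ρ₁ j1 j2
    obtain ⟨p1, p2, hP, hw⟩ := j2
    rw [← j1]
    refine J_congr p1.le p2.le (fun x hx0 hx1 => ?_)
    obtain ⟨q0, q1⟩ := torus_pt p1 p2 hx0 hx1
    rw [hP x hx0.le hx1.le (prod_ne q0 q1 (hw x hx0.le hx1))]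

theorem Good.der {c : ℂ} {g : Fn} (i : Fin 2) (hg : Good c (g (s1 c))) :
    Good c (act (Fc c) i g (s1 c)) := by
  have hFa : ∀ (j : Fin 3) (x : Fin 2 → ℂ), AnalyticAt ℂ (Fc c j) x := by
    intro j x
    fin_cases j
    · exact analyticAt_x0 x
    · exact analyticAt_x1 x
    · exact analyticAt_fc c x
  have hFne : ∀ (j : Fin 3) (x : Fin 2 → ℂ), (∏ j, Fc c j x) ≠ 0 → Fc c j x ≠ 0 := by
    intro j x hx h0
    exact hx (Finset.prod_eq_zero (Finset.mem_univ j) h0)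
  refine ⟨?_, fun a ha => ?_⟩
  · filter_upwards [hg.1] with x h1 hx
    have hsum : AnalyticAt ℂ (fun x => ∑ j, s1 c j * (pd i (Fc c j) x / Fc c j x)) x := by
      apply Finset.analyticAt_fun_sum
      intro j _
      exact analyticAt_const.mul ((analyticAt_pd (hFa j x) i).div (hFa j x) (hFne j x hx))
    exact (analyticAt_pd (h1 hx) i).add ((h1 hx).mul hsum)
  · filter_upwards [hg.2 (pd i a) (analyticAt_pd ha i),
      near c (ha.eventually_analyticAt.and hg.1)] with ρ₂ k1 k2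
    filter_upwards [k1, k2] with ρ₁ j1 j2
    obtain ⟨p1, p2, hP, hw⟩ := j2
    have hall : ∀ x : Fin 2 → ℂ, ‖x 0‖ = ρ₁ → ‖x 1‖ = ρ₂ → AnalyticAt ℂ a x ∧
        AnalyticAt ℂ (g (s1 c)) x ∧ AnalyticAt ℂ (Phi c) x := by
      intro x hx0 hx1
      obtain ⟨q0, q1⟩ := torus_pt p1 p2 hx0 hx1
      exact ⟨(hP x hx0.le hx1.le).1, (hP x hx0.le hx1.le).2 (prod_ne q0 q1 (hw x hx0.le hx1)),
        analyticAt_Phi c x q0 q1 (hw x hx0.le hx1)⟩
    have e1 := J_pd (G := fun x => a x * (g (s1 c) x * Phi c x)) p1 p2 (fun x hx0 hx1 => by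
      obtain ⟨q1, q2, q3⟩ := hall x hx0 hx1
      exact q1.mul (q2.mul q3)) i
    have e2 : J ρ₁ ρ₂ (fun x => a x * act (Fc c) i g (s1 c) x * Phi c x) =
        J ρ₁ ρ₂ (fun x => pd i (fun x => a x * (g (s1 c) x * Phi c x)) x -
          pd i a x * g (s1 c) x * Phi c x) := by
      refine J_congr p1.le p2.le (fun x hx0 hx1 => ?_)
      obtain ⟨q1, q2, q3⟩ := hall x hx0 hx1
      obtain ⟨r0, r1⟩ := torus_pt p1 p2 hx0 hx1
      have m1 : pd i (fun x => a x * (g (s1 c) x * Phi c x)) x =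
          pd i a x * (g (s1 c) x * Phi c x) + a x * pd i (fun x => g (s1 c) x * Phi c x) x :=
        pd_mul q1.differentiableAt (q2.mul q3).differentiableAt i
      have m2 : pd i (fun x => g (s1 c) x * Phi c x) x =
          pd i (g (s1 c)) x * Phi c x + g (s1 c) x * pd i (Phi c) x :=
        pd_mul q2.differentiableAt q3.differentiableAt i
      rw [m1, m2, pd_Phi c x r0 r1 (hw x hx0.le hx1) i]
      simp only [act]
      ring
    have hint1 : TorusIntegrable (pd i (fun x => a x * (g (s1 c) x * Phi c x))) 0 ![ρ₁, ρ₂] := by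
      refine torusInt p1.le p2.le (fun x hx0 hx1 => ?_)
      obtain ⟨q1, q2, q3⟩ := hall x hx0 hx1
      exact (analyticAt_pd (q1.mul (q2.mul q3)) i).continuousAt
    have hint2 : TorusIntegrable (fun x => pd i a x * g (s1 c) x * Phi c x) 0 ![ρ₁, ρ₂] := by
      refine torusInt p1.le p2.le (fun x hx0 hx1 => ?_)
      obtain ⟨q1, q2, q3⟩ := hall x hx0 hx1
      exact (((analyticAt_pd q1 i).mul q2).mul q3).continuousAt
    rw [e2]
    have e3 : J ρ₁ ρ₂ (fun x => pd i (fun x => a x * (g (s1 c) x * Phi c x)) x -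
          pd i a x * g (s1 c) x * Phi c x) = J ρ₁ ρ₂ (pd i (fun x => a x * (g (s1 c) x * Phi c x))) -
          J ρ₁ ρ₂ (fun x => pd i a x * g (s1 c) x * Phi c x) := by
      unfold J
      rw [← torusIntegral_sub hint1 hint2]
    rw [e3, e1, j1, sub_zero]

/-- value and first two derivatives at `x = 0` of `w^β` along a horizontal line -/
theorem wf_line (c β y : ℂ) (hy : y ≠ 0) (ρ : ℝ) (hρ : 0 < ρ)
    (hw : ∀ x : ℂ, ‖x‖ ≤ ρ → ‖wf c ![x, y] - 1‖ < 1) :
    (∀ x : ℂ, ‖x‖ ≤ ρ → AnalyticAt ℂ (fun x => wf c ![x, y] ^ β) x) ∧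
    wf c ![0, y] ^ β = 1 ∧ deriv (fun x => wf c ![x, y] ^ β) 0 = 2 * β / y ∧
    deriv (deriv (fun x => wf c ![x, y] ^ β)) 0 = β * (4 * (β - 1) + 2 * c) / y ^ 2 := by
  have hwf : (fun x : ℂ => wf c ![x, y]) =
      fun x => (x ^ 3 + y ^ 4 + 2 * x * y ^ 3 + c * x ^ 2 * y ^ 2) / y ^ 4 := rfl
  have hd : ∀ x : ℂ, HasDerivAt (fun x : ℂ => wf c ![x, y])
      ((3 * x ^ 2 + 2 * y ^ 3 + 2 * c * x * y ^ 2) / y ^ 4) x := fun x =>
    (hasDerivAt_fc0 c y x).div_const (y ^ 4)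
  have hana : ∀ x : ℂ, AnalyticAt ℂ (fun x : ℂ => wf c ![x, y]) x := by
    intro x
    rw [hwf]
    fun_prop (disch := exact pow_ne_zero 4 hy)
  have hd1 : ∀ x : ℂ, ‖x‖ ≤ ρ → HasDerivAt (fun x => wf c ![x, y] ^ β)
      (β * wf c ![x, y] ^ (β - 1) * ((3 * x ^ 2 + 2 * y ^ 3 + 2 * c * x * y ^ 2) / y ^ 4)) x :=
    fun x hx => (hd x).cpow_const (slit_of _ (hw x hx))
  have hw0 : wf c ![0, y] = 1 := by
    change (0 ^ 3 + y ^ 4 + 2 * 0 * y ^ 3 + c * 0 ^ 2 * y ^ 2) / y ^ 4 = 1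
    field_simp
    ring
  refine ⟨fun x hx => (hana x).cpow analyticAt_const (slit_of _ (hw x hx)), ?_, ?_, ?_⟩
  · rw [hw0, Complex.one_cpow]
  · rw [(hd1 0 (by simp [hρ.le])).deriv, hw0, Complex.one_cpow]
    field_simp
    ring
  · have heq : deriv (fun x => wf c ![x, y] ^ β) =ᶠ[𝓝 0] fun x =>
        β * wf c ![x, y] ^ (β - 1) * ((3 * x ^ 2 + 2 * y ^ 3 + 2 * c * x * y ^ 2) / y ^ 4) := by
      filter_upwards [Metric.closedBall_mem_nhds (0 : ℂ) hρ] with x hx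
      exact (hd1 x (by simpa using hx)).deriv
    rw [heq.deriv_eq]
    have hd2 : HasDerivAt (fun x => wf c ![x, y] ^ (β - 1))
      ((β - 1) * wf c ![0, y] ^ (β - 1 - 1) *
        ((3 * 0 ^ 2 + 2 * y ^ 3 + 2 * c * 0 * y ^ 2) / y ^ 4)) 0 :=
      (hd 0).cpow_const (slit_of _ (hw 0 (by simp [hρ.le])))
    have hd3 : HasDerivAt (fun x : ℂ => (3 * x ^ 2 + 2 * y ^ 3 + 2 * c * x * y ^ 2) / y ^ 4)
        (2 * c * y ^ 2 / y ^ 4) 0 := by
      have h1 := ((((hasDerivAt_id (0 : ℂ)).pow 2).const_mul 3).add_const (2 * y ^ 3)).add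
        (((hasDerivAt_id (0 : ℂ)).const_mul (2 * c)).mul_const (y ^ 2))
      have h2 := h1.div_const (y ^ 4)
      refine h2.congr_deriv ?_
      simp
    have hd4 := ((hd2.const_mul β).mul hd3).deriv
    refine Eq.trans hd4 ?_
    rw [hw0, Complex.one_cpow, Complex.one_cpow]
    field_simp
    ring

/-- the generator -/
theorem good_gen (c : ℂ) : Good c (fun x => ∏ j, Fc c j x) := by
  refine ⟨Filter.Eventually.of_forall fun x _ => ?_, fun a ha => ?_⟩
  · simp only [prod_Fc]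
    exact ((analyticAt_x0 x).mul (analyticAt_x1 x)).mul (analyticAt_fc c x)
  filter_upwards [near c ha.eventually_analyticAt] with ρ₂ k
  filter_upwards [k] with ρ₁ j
  obtain ⟨p1, p2, hP, hw⟩ := j
  have hint : TorusIntegrable (fun x => a x * (∏ j, Fc c j x) * Phi c x) 0 ![ρ₁, ρ₂] := by
    refine torusInt p1.le p2.le (fun x hx0 hx1 => ?_)
    obtain ⟨q0, q1⟩ := torus_pt p1 p2 hx0 hx1
    simp only [prod_Fc]
    exact (((hP x hx0.le hx1.le).mul (((analyticAt_x0 x).mul (analyticAt_x1 x)).mul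
      (analyticAt_fc c x))).mul (analyticAt_Phi c x q0 q1 (hw x hx0.le hx1))).continuousAt
  rw [J_eq_yx hint]
  set β : ℂ := 1 - c / 2 with hβ
  have hlineA : ∀ x y : ℂ, ‖x‖ ≤ ρ₁ → ‖y‖ ≤ ρ₂ → AnalyticAt ℂ (fun x => a ![x, y]) x := by
    intro x y hx hy
    have h1 : AnalyticAt ℂ a ![x, y] := hP ![x, y] hx hy
    have h2 : AnalyticAt ℂ (fun x : ℂ => (![x, y] : Fin 2 → ℂ)) x := by
      rw [analyticAt_pi_iff]
      intro i
      fin_cases i
      · exact analyticAt_id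
      · exact analyticAt_const
    exact AnalyticAt.comp (f := fun x : ℂ => (![x, y] : Fin 2 → ℂ)) h1 h2
  have hpdline : ∀ (u : (Fin 2 → ℂ) → ℂ) (x y : ℂ),
      deriv (fun x => u ![x, y]) x = pd 0 u ![x, y] := by
    intro u x y
    simp only [pd, upd0]
    rfl
  have hinner : ∀ y ∈ Metric.sphere (0 : ℂ) ρ₂,
      (∮ x in C(0, ρ₁), a ![x, y] * (∏ j, Fc c j ![x, y]) * Phi c ![x, y]) =
        π * Complex.I * (y * pd 0 (pd 0 a) ![0, y] + 4 * β * pd 0 a ![0, y]) := by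
    intro y hy
    have hyn : ‖y‖ = ρ₂ := by simpa using hy
    have hy0 : y ≠ 0 := by
      intro h; rw [h, norm_zero] at hyn; linarith
    obtain ⟨w1, w2, w3, w4⟩ := wf_line c β y hy0 ρ₁ p1 (fun x hx => hw ![x, y] hx hyn)
    have hcongr : (∮ x in C(0, ρ₁), a ![x, y] * (∏ j, Fc c j ![x, y]) * Phi c ![x, y]) =
        ∮ x in C(0, ρ₁), x⁻¹ ^ 3 * (y * (a ![x, y] * wf c ![x, y] ^ β)) := by
      refine circleIntegral.integral_congr p1.le (fun x hx => ?_)
      have hxn : ‖x‖ = ρ₁ := by simpa using hx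
      have hx0 : x ≠ 0 := by
        intro h; rw [h, norm_zero] at hxn; linarith
      have hwn := wf_ne c ![x, y] (hw ![x, y] hxn.le hyn)
      have hpow : wf c ![x, y] ^ β = wf c ![x, y] * wf c ![x, y] ^ (-c / 2) := by
        rw [hβ, show (1 : ℂ) - c / 2 = 1 + -c / 2 by ring, Complex.cpow_add _ _ hwn,
          Complex.cpow_one]
      have hfc : fc c ![x, y] = y ^ 4 * wf c ![x, y] := by
        change fc c ![x, y] = y ^ 4 * (fc c ![x, y] / y ^ 4)
        field_simp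
      simp only [prod_Fc]
      rw [hpow, hfc]
      simp only [Phi]
      change a ![x, y] * (x * y * (y ^ 4 * wf c ![x, y])) * (x⁻¹ ^ 4 * y⁻¹ ^ 4 *
        wf c ![x, y] ^ (-c / 2)) = _
      generalize wf c ![x, y] ^ (-c / 2) = W
      field_simp
    rw [hcongr]
    have hana : ∀ x : ℂ, ‖x‖ ≤ ρ₁ → AnalyticAt ℂ (fun x => y * (a ![x, y] * wf c ![x, y] ^ β)) x :=
      fun x hx => analyticAt_const.mul ((hlineA x y hx hyn.le).mul (w1 x hx))
    rw [residue3 p1 hana]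
    have hρ0 : ‖(0 : ℂ)‖ ≤ ρ₁ := by simp [p1.le]
    have hder1 : deriv (fun x => y * (a ![x, y] * wf c ![x, y] ^ β)) =ᶠ[𝓝 0]
        fun x => y * (deriv (fun x => a ![x, y]) x * wf c ![x, y] ^ β +
          a ![x, y] * deriv (fun x => wf c ![x, y] ^ β) x) := by
      filter_upwards [Metric.closedBall_mem_nhds (0 : ℂ) p1] with x hx
      have hx' : ‖x‖ ≤ ρ₁ := by simpa using hx
      have := (((hlineA x y hx' hyn.le).differentiableAt.hasDerivAt).mul
        ((w1 x hx').differentiableAt.hasDerivAt)).const_mul y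
      exact this.deriv
    rw [hder1.deriv_eq]
    have g1 := (hlineA 0 y hρ0 hyn.le).deriv.differentiableAt.hasDerivAt
    have g0 := (hlineA 0 y hρ0 hyn.le).differentiableAt.hasDerivAt
    have v0 := (w1 0 hρ0).differentiableAt.hasDerivAt
    have v1 := (w1 0 hρ0).deriv.differentiableAt.hasDerivAt
    have hfin := (((g1.mul v0).add (g0.mul v1)).const_mul y).deriv
    have hfin' : deriv (fun x => y * (deriv (fun x => a ![x, y]) x * wf c ![x, y] ^ β +
          a ![x, y] * deriv (fun x => wf c ![x, y] ^ β) x)) 0 =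
          y * (deriv (deriv (fun x => a ![x, y])) 0 * wf c ![0, y] ^ β +
          deriv (fun x => a ![x, y]) 0 * deriv (fun x => wf c ![x, y] ^ β) 0 +
          (deriv (fun x => a ![x, y]) 0 * deriv (fun x => wf c ![x, y] ^ β) 0 +
          a ![0, y] * deriv (deriv (fun x => wf c ![x, y] ^ β)) 0)) := hfin
    rw [hfin', w2, w3, w4]
    have hdd : deriv (deriv (fun x => a ![x, y])) 0 = pd 0 (pd 0 a) ![0, y] := by
      have : deriv (fun x => a ![x, y]) = fun x => pd 0 a ![x, y] := by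
        funext x
        exact hpdline a x y
      rw [this]
      exact hpdline (pd 0 a) 0 y
    rw [hdd, hpdline a 0 y]
    have hz : β * (4 * (β - 1) + 2 * c) / y ^ 2 = 0 := by
      rw [hβ]
      ring
    rw [hz]
    field_simp
    ring
  rw [circleIntegral.integral_congr p2.le hinner]
  -- Cauchy-Goursat in `y`
  refine Complex.circleIntegral_eq_zero_of_differentiable_on_off_countable p2.le
    Set.countable_empty ?_ ?_
  · intro y hy
    have hyn : ‖y‖ ≤ ρ₂ := by simpa using hy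
    have hav : AnalyticAt ℂ a ![0, y] := hP ![0, y] (by simp [p1.le]) hyn
    have h2 : AnalyticAt ℂ (fun y : ℂ => (![0, y] : Fin 2 → ℂ)) y := by
      rw [analyticAt_pi_iff]
      intro i
      fin_cases i
      · exact analyticAt_const
      · exact analyticAt_id
    have k1 : AnalyticAt ℂ (fun y => pd 0 a ![0, y]) y :=
      AnalyticAt.comp (f := fun y : ℂ => (![0, y] : Fin 2 → ℂ)) (analyticAt_pd hav 0) h2
    have k2 : AnalyticAt ℂ (fun y => pd 0 (pd 0 a) ![0, y]) y :=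
      AnalyticAt.comp (f := fun y : ℂ => (![0, y] : Fin 2 → ℂ))
        (analyticAt_pd (analyticAt_pd hav 0) 0) h2
    exact (analyticAt_const.mul ((analyticAt_id.mul k2).add
      (analyticAt_const.mul k1))).continuousAt.continuousWithinAt
  · intro y hy
    have hyn : ‖y‖ ≤ ρ₂ := by
      have : y ∈ Metric.ball (0 : ℂ) ρ₂ := hy.1
      exact (by simpa using this : ‖y‖ < ρ₂).le
    have hav : AnalyticAt ℂ a ![0, y] := hP ![0, y] (by simp [p1.le]) hyn
    have h2 : AnalyticAt ℂ (fun y : ℂ => (![0, y] : Fin 2 → ℂ)) y := by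
      rw [analyticAt_pi_iff]
      intro i
      fin_cases i
      · exact analyticAt_const
      · exact analyticAt_id
    have k1 : AnalyticAt ℂ (fun y => pd 0 a ![0, y]) y :=
      AnalyticAt.comp (f := fun y : ℂ => (![0, y] : Fin 2 → ℂ)) (analyticAt_pd hav 0) h2
    have k2 : AnalyticAt ℂ (fun y => pd 0 (pd 0 a) ![0, y]) y :=
      AnalyticAt.comp (f := fun y : ℂ => (![0, y] : Fin 2 → ℂ))
        (analyticAt_pd (analyticAt_pd hav 0) 0) h2
    exact (analyticAt_const.mul ((analyticAt_id.mul k2).add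
      (analyticAt_const.mul k1))).differentiableAt

theorem good_of_InD {c : ℂ} {g : Fn} (hg : InD (Fc c) 0 g) : Good c (g (s1 c)) := by
  induction hg with
  | gen => exact good_gen c
  | add _ _ h1 h2 => exact h1.add h2
  | mul_fun ha _ h => exact h.mul_fun ha
  | mul_var j _ h => exact h.mul_fun (a := fun _ => s1 c j) analyticAt_const
  | der i _ h => exact h.der i
  | congr hgh _ h =>
    refine h.congr ?_
    filter_upwards [hgh] with x hx hx'
    exact hx hx' _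

/-- every element of the Bernstein-Sato ideal at the origin vanishes at `s1` -/
theorem eval_s1_eq_zero {c : ℂ} {b : MvPolynomial (Fin 3) ℂ}
    (hb : InD (Fc c) 0 (fun s _ => eval s b)) : eval (s1 c) b = 0 := by
  have h := good_of_InD hb
  have ha : AnalyticAt ℂ (fun x : Fin 2 → ℂ => x 0 ^ 3 * x 1 ^ 3) 0 :=
    ((analyticAt_x0 0).pow 3).mul ((analyticAt_x1 0).pow 3)
  have h2 := h.2 _ ha
  obtain ⟨ρ₂, k1, k2⟩ := (h2.and (near c (P := fun _ => True)
    (Filter.Eventually.of_forall fun _ => trivial))).exists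
  obtain ⟨ρ₁, j1, p1, p2, _, hw⟩ := (k1.and k2).exists
  have hint : TorusIntegrable (fun x : Fin 2 → ℂ => x 0 ^ 3 * x 1 ^ 3 * eval (s1 c) b * Phi c x) 0
      ![ρ₁, ρ₂] := by
    refine torusInt p1.le p2.le (fun x hx0 hx1 => ?_)
    obtain ⟨q0, q1⟩ := torus_pt p1 p2 hx0 hx1
    exact (((((analyticAt_x0 x).pow 3).mul ((analyticAt_x1 x).pow 3)).mul analyticAt_const).mul
      (analyticAt_Phi c x q0 q1 (hw x hx0.le hx1))).continuousAt
  rw [J_eq_yx hint] at j1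
  have hinner : ∀ y ∈ Metric.sphere (0 : ℂ) ρ₂,
      (∮ x in C(0, ρ₁), (![x, y] : Fin 2 → ℂ) 0 ^ 3 * (![x, y] : Fin 2 → ℂ) 1 ^ 3 *
        eval (s1 c) b * Phi c ![x, y]) =
        (y - 0)⁻¹ • (2 * π * Complex.I * eval (s1 c) b) := by
    intro y hy
    have hyn : ‖y‖ = ρ₂ := by simpa using hy
    have hy0 : y ≠ 0 := by
      intro h; rw [h, norm_zero] at hyn; linarith
    obtain ⟨w1, w2, -, -⟩ := wf_line c (-c / 2) y hy0 ρ₁ p1 (fun x hx => hw ![x, y] hx hyn)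
    have hcongr : (∮ x in C(0, ρ₁), (![x, y] : Fin 2 → ℂ) 0 ^ 3 * (![x, y] : Fin 2 → ℂ) 1 ^ 3 *
        eval (s1 c) b * Phi c ![x, y]) =
        ∮ x in C(0, ρ₁), (x - 0)⁻¹ • (y⁻¹ * eval (s1 c) b * wf c ![x, y] ^ (-c / 2)) := by
      refine circleIntegral.integral_congr p1.le (fun x hx => ?_)
      have hxn : ‖x‖ = ρ₁ := by simpa using hx
      have hx0 : x ≠ 0 := by
        intro h; rw [h, norm_zero] at hxn; linarith
      simp only [Phi, sub_zero, smul_eq_mul]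
      change x ^ 3 * y ^ 3 * eval (s1 c) b * (x⁻¹ ^ 4 * y⁻¹ ^ 4 * wf c ![x, y] ^ (-c / 2)) = _
      generalize wf c ![x, y] ^ (-c / 2) = W
      field_simp
    rw [hcongr]
    have hD : DifferentiableOn ℂ (fun x => y⁻¹ * eval (s1 c) b * wf c ![x, y] ^ (-c / 2))
        (Metric.closedBall 0 ρ₁) := fun x hx =>
      ((w1 x (by simpa using hx)).differentiableAt.const_mul _).differentiableWithinAt
    rw [hD.circleIntegral_sub_inv_smul (w := 0) (Metric.mem_ball_self p1), w2]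
    simp only [sub_zero, smul_eq_mul]
    ring
  rw [circleIntegral.integral_congr p2.le hinner] at j1
  have hD2 : DifferentiableOn ℂ (fun _ : ℂ => 2 * π * Complex.I * eval (s1 c) b)
      (Metric.closedBall 0 ρ₂) := differentiableOn_const _
  rw [hD2.circleIntegral_sub_inv_smul (w := 0) (Metric.mem_ball_self p2)] at j1
  simp only [smul_eq_mul] at j1
  have hpi : (2 * (π : ℂ) * Complex.I) ≠ 0 := Complex.two_pi_I_ne_zero
  rcases mul_eq_zero.1 j1 with h0 | h0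
  · exact absurd h0 hpi
  · rcases mul_eq_zero.1 h0 with h1 | h1
    · exact absurd h1 hpi
    · exact h1

end Pool.Agent.W459.BS
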