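import Pool.Agent.W459.BS.Defs

set_option autoImplicit false

open scoped Topology
open MvPolynomial

namespace Pool.Agent.W459.BS

/-- The polynomial `x^3 + y^4 + 2 x y^3 + c x^2 y^2` on `ℂ^2`. -/
def fc (c : ℂ) (x : Fin 2 → ℂ) : ℂ :=
  x 0 ^ 3 + x 1 ^ 4 + 2 * x 0 * x 1 ^ 3 + c * x 0 ^ 2 * x 1 ^ 2

/-- The triple `(x, y, x^3 + y^4 + 2 x y^3 + c x^2 y^2)` of functions on `ℂ^2`. -/
def Fc (c : ℂ) : Fin 3 → (Fin 2 → ℂ) → ℂ := ![fun x => x 0, fun x => x 1, fc c]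

/-- the special point -/
noncomputable def s1 (c : ℂ) : Fin 3 → ℂ := ![-4, 2 * c - 4, -c / 2]

abbrev Fn : Type := (Fin 3 → ℂ) → (Fin 2 → ℂ) → ℂ

theorem prod_Fc (c : ℂ) (x : Fin 2 → ℂ) : (∏ j, Fc c j x) = x 0 * x 1 * fc c x := by
  simp [Fc, Fin.prod_univ_three]

/-- closure properties -/
structure Closed (c : ℂ) (H : Set Fn) : Prop where
  add : ∀ g ∈ H, ∀ h ∈ H, (fun s x => g s x + h s x) ∈ H
  smul : ∀ (q : MvPolynomial (Fin 3) ℂ), ∀ g ∈ H, (fun s x => eval s q * g s x) ∈ H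
  unit : ∀ (q : MvPolynomial (Fin 3) ℂ), eval (s1 c) q ≠ 0 → ∀ g : Fn,
    (fun s x => eval s q * g s x) ∈ H → g ∈ H
  mulx : ∀ g ∈ H, (fun s x => x 0 * g s x) ∈ H
  muly : ∀ g ∈ H, (fun s x => x 1 * g s x) ∈ H
  dx : ∀ g ∈ H, act (Fc c) 0 g ∈ H
  dy : ∀ g ∈ H, act (Fc c) 1 g ∈ H
  congr : ∀ g ∈ H, ∀ h : Fn, (∀ x : Fin 2 → ℂ, x 0 ≠ 0 → x 1 ≠ 0 → fc c x ≠ 0 → ∀ s, g s x = h s x) →
    h ∈ H

/-- all functions a multiple of which by a polynomial not vanishing at `s1` is in the D-module -/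
def GS (c : ℂ) : Set Fn :=
  {g | ∃ q : MvPolynomial (Fin 3) ℂ, eval (s1 c) q ≠ 0 ∧
    ∀ p, InD (Fc c) p (fun s x => eval s q * g s x)}

theorem act_smul (c : ℂ) (i : Fin 2) (q : MvPolynomial (Fin 3) ℂ) (g : Fn) :
    act (Fc c) i (fun s x => eval s q * g s x) = fun s x => eval s q * act (Fc c) i g s x := by
  funext s x
  simp only [act, pd]
  rw [deriv_const_mul_field]
  ring

theorem closed_GS (c : ℂ) : Closed c (GS c) where
  add := by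
    rintro g ⟨q, hq, hg⟩ h ⟨q', hq', hh⟩
    refine ⟨q * q', by rw [map_mul]; exact mul_ne_zero hq hq', fun p => ?_⟩
    refine InD.congr (Filter.Eventually.of_forall fun x _ s => ?_)
      (InD.add (InD.mul_poly q' (hg p)) (InD.mul_poly q (hh p)))
    simp only [map_mul]; ring
  smul := by
    rintro r g ⟨q, hq, hg⟩
    refine ⟨q, hq, fun p => ?_⟩
    refine InD.congr (Filter.Eventually.of_forall fun x _ s => ?_) (InD.mul_poly r (hg p))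
    ring
  unit := by
    rintro r hr g ⟨q, hq, hg⟩
    refine ⟨q * r, by rw [map_mul]; exact mul_ne_zero hq hr, fun p => ?_⟩
    refine InD.congr (Filter.Eventually.of_forall fun x _ s => ?_) (hg p)
    simp only [map_mul]; ring
  mulx := by
    rintro g ⟨q, hq, hg⟩
    refine ⟨q, hq, fun p => ?_⟩
    refine InD.congr (Filter.Eventually.of_forall fun x _ s => ?_)
      (InD.mul_fun (a := fun x => x 0) ?_ (hg p))
    · ring
    · exact (ContinuousLinearMap.proj (R := ℂ) (φ := fun _ : Fin 2 => ℂ) 0).analyticAt p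
  muly := by
    rintro g ⟨q, hq, hg⟩
    refine ⟨q, hq, fun p => ?_⟩
    refine InD.congr (Filter.Eventually.of_forall fun x _ s => ?_)
      (InD.mul_fun (a := fun x => x 1) ?_ (hg p))
    · ring
    · exact (ContinuousLinearMap.proj (R := ℂ) (φ := fun _ : Fin 2 => ℂ) 1).analyticAt p
  dx := by
    rintro g ⟨q, hq, hg⟩
    refine ⟨q, hq, fun p => ?_⟩
    rw [← act_smul]
    exact InD.der 0 (hg p)
  dy := by
    rintro g ⟨q, hq, hg⟩
    refine ⟨q, hq, fun p => ?_⟩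
    rw [← act_smul]
    exact InD.der 1 (hg p)
  congr := by
    rintro g ⟨q, hq, hg⟩ h hgh
    refine ⟨q, hq, fun p => ?_⟩
    refine InD.congr (Filter.Eventually.of_forall fun x hx s => ?_) (hg p)
    rw [prod_Fc] at hx
    rw [hgh x (fun h => hx (by rw [h]; ring)) (fun h => hx (by rw [h]; ring))
      (fun h => hx (by rw [h]; ring)) s]

/-- `H_τ = {g | τ g ∈ H}` -/
def colon (H : Set Fn) (τ : MvPolynomial (Fin 3) ℂ) : Set Fn :=
  {g | (fun s x => eval s τ * g s x) ∈ H}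

theorem closed_colon {c : ℂ} {H : Set Fn} (hH : Closed c H) (τ : MvPolynomial (Fin 3) ℂ) :
    Closed c (colon H τ) where
  add := by
    intro g hg h hh
    refine hH.congr _ (hH.add _ hg _ hh) _ (fun x _ _ _ s => ?_)
    ring
  smul := by
    intro q g hg
    refine hH.congr _ (hH.smul q _ hg) _ (fun x _ _ _ s => ?_)
    ring
  unit := by
    intro q hq g hg
    refine hH.unit q hq _ ?_
    refine hH.congr _ hg _ (fun x _ _ _ s => ?_)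
    ring
  mulx := by
    intro g hg
    refine hH.congr _ (hH.mulx _ hg) _ (fun x _ _ _ s => ?_)
    ring
  muly := by
    intro g hg
    refine hH.congr _ (hH.muly _ hg) _ (fun x _ _ _ s => ?_)
    ring
  dx := by
    intro g hg
    have := hH.dx _ hg
    rw [act_smul] at this
    exact this
  dy := by
    intro g hg
    have := hH.dy _ hg
    rw [act_smul] at this
    exact this
  congr := by
    intro g hg h hgh
    refine hH.congr _ hg _ (fun x hx hy hf s => ?_)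
    rw [hgh x hx hy hf s]

theorem le_colon {c : ℂ} {H : Set Fn} (hH : Closed c H) (τ : MvPolynomial (Fin 3) ℂ) :
    H ⊆ colon H τ := fun _ hg => hH.smul τ _ hg

/-- the functions `x^a y^b / f^k` -/
noncomputable def e (c : ℂ) (a b k : ℕ) : Fn := fun _ x => x 0 ^ a * x 1 ^ b / (fc c x) ^ k

theorem pd_F00 (c : ℂ) (x : Fin 2 → ℂ) : pd 0 (Fc c 0) x = 1 := by
  simp [pd, Fc]

theorem pd_F01 (c : ℂ) (x : Fin 2 → ℂ) : pd 0 (Fc c 1) x = 0 := by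
  simp [pd, Fc]

theorem pd_F10 (c : ℂ) (x : Fin 2 → ℂ) : pd 1 (Fc c 0) x = 0 := by
  simp [pd, Fc]

theorem pd_F11 (c : ℂ) (x : Fin 2 → ℂ) : pd 1 (Fc c 1) x = 1 := by
  simp [pd, Fc]

theorem hasDerivAt_fc0 (c y t : ℂ) :
    HasDerivAt (fun t : ℂ => t ^ 3 + y ^ 4 + 2 * t * y ^ 3 + c * t ^ 2 * y ^ 2)
      (3 * t ^ 2 + 2 * y ^ 3 + 2 * c * t * y ^ 2) t := by
  have h1 := (((hasDerivAt_id t).pow 3).add_const (y ^ 4)).add
    ((((hasDerivAt_id t).const_mul 2)).mul_const (y ^ 3))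
  have h2 := h1.add ((((hasDerivAt_id t).pow 2).const_mul c).mul_const (y ^ 2))
  refine h2.congr_deriv ?_
  simp only [id_eq, Nat.cast_ofNat]
  ring

theorem hasDerivAt_fc1 (c x t : ℂ) :
    HasDerivAt (fun t : ℂ => x ^ 3 + t ^ 4 + 2 * x * t ^ 3 + c * x ^ 2 * t ^ 2)
      (4 * t ^ 3 + 6 * x * t ^ 2 + 2 * c * x ^ 2 * t) t := by
  have h1 := (((hasDerivAt_id t).pow 4).const_add (x ^ 3)).add
    (((hasDerivAt_id t).pow 3).const_mul (2 * x))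
  have h2 := h1.add (((hasDerivAt_id t).pow 2).const_mul (c * x ^ 2))
  refine h2.congr_deriv ?_
  simp
  ring

theorem pd_F02 (c : ℂ) (x : Fin 2 → ℂ) :
    pd 0 (Fc c 2) x = 3 * x 0 ^ 2 + 2 * x 1 ^ 3 + 2 * c * x 0 * x 1 ^ 2 := by
  have h : (fun t : ℂ => Fc c 2 (Function.update x 0 t)) =
      fun t : ℂ => t ^ 3 + x 1 ^ 4 + 2 * t * x 1 ^ 3 + c * t ^ 2 * x 1 ^ 2 := by
    funext t
    simp [Fc, fc]
  rw [pd, h]
  exact (hasDerivAt_fc0 c (x 1) (x 0)).deriv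

theorem pd_F12 (c : ℂ) (x : Fin 2 → ℂ) :
    pd 1 (Fc c 2) x = 4 * x 1 ^ 3 + 6 * x 0 * x 1 ^ 2 + 2 * c * x 0 ^ 2 * x 1 := by
  have h : (fun t : ℂ => Fc c 2 (Function.update x 1 t)) =
      fun t : ℂ => x 0 ^ 3 + t ^ 4 + 2 * x 0 * t ^ 3 + c * x 0 ^ 2 * t ^ 2 := by
    funext t
    simp [Fc, fc]
  rw [pd, h]
  exact (hasDerivAt_fc1 c (x 0) (x 1)).deriv

theorem act0 (c : ℂ) (g : Fn) (s : Fin 3 → ℂ) (x : Fin 2 → ℂ) :
    act (Fc c) 0 g s x = pd 0 (g s) x + g s x * (s 0 / x 0 +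
      s 2 * ((3 * x 0 ^ 2 + 2 * x 1 ^ 3 + 2 * c * x 0 * x 1 ^ 2) / fc c x)) := by
  rw [act, Fin.sum_univ_three, pd_F00, pd_F01, pd_F02]
  have h0 : Fc c 0 x = x 0 := rfl
  have h2 : Fc c 2 x = fc c x := rfl
  rw [h0, h2]
  ring

theorem act1 (c : ℂ) (g : Fn) (s : Fin 3 → ℂ) (x : Fin 2 → ℂ) :
    act (Fc c) 1 g s x = pd 1 (g s) x + g s x * (s 1 / x 1 +
      s 2 * ((4 * x 1 ^ 3 + 6 * x 0 * x 1 ^ 2 + 2 * c * x 0 ^ 2 * x 1) / fc c x)) := by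
  rw [act, Fin.sum_univ_three, pd_F10, pd_F11, pd_F12]
  have h0 : Fc c 1 x = x 1 := rfl
  have h2 : Fc c 2 x = fc c x := rfl
  rw [h0, h2]
  ring

theorem deriv_quot {u : ℂ → ℂ} {u' t : ℂ} (hu : HasDerivAt u u' t) (h0 : u t ≠ 0) (A : ℂ)
    (a k : ℕ) : deriv (fun t : ℂ => A * t ^ (a + 1) / u t ^ k) t =
      ((a : ℂ) + 1) * (A * t ^ a) / u t ^ k - (k : ℂ) * (A * t ^ (a + 1)) * u' / u t ^ (k + 1) := by
  have h1 := (((hasDerivAt_id t).pow (a + 1)).const_mul A).div (hu.pow k) (pow_ne_zero k h0)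
  refine Eq.trans (HasDerivAt.deriv (f := fun t : ℂ => A * t ^ (a + 1) / u t ^ k) h1) ?_
  simp only [id_eq, Pi.pow_apply]
  generalize u t = z at h0
  rcases k with _ | k
  · simp
    ring
  · simp only [Nat.add_sub_cancel, Nat.cast_add, Nat.cast_one]
    field_simp
    ring

theorem pd0_e (c : ℂ) (a b k : ℕ) (s : Fin 3 → ℂ) (x : Fin 2 → ℂ) (hf : fc c x ≠ 0) :
    pd 0 (e c (a + 1) b k s) x = ((a : ℂ) + 1) * (x 1 ^ b * x 0 ^ a) / fc c x ^ k -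
      (k : ℂ) * (x 1 ^ b * x 0 ^ (a + 1)) *
        (3 * x 0 ^ 2 + 2 * x 1 ^ 3 + 2 * c * x 0 * x 1 ^ 2) / fc c x ^ (k + 1) := by
  have h : (fun t : ℂ => e c (a + 1) b k s (Function.update x 0 t)) =
      fun t : ℂ => x 1 ^ b * t ^ (a + 1) /
        (t ^ 3 + x 1 ^ 4 + 2 * t * x 1 ^ 3 + c * t ^ 2 * x 1 ^ 2) ^ k := by
    funext t
    simp [e, fc, mul_comm]
  rw [pd, h]
  exact deriv_quot (hasDerivAt_fc0 c (x 1) (x 0)) hf _ _ _

theorem pd1_e (c : ℂ) (a b k : ℕ) (s : Fin 3 → ℂ) (x : Fin 2 → ℂ) (hf : fc c x ≠ 0) :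
    pd 1 (e c a (b + 1) k s) x = ((b : ℂ) + 1) * (x 0 ^ a * x 1 ^ b) / fc c x ^ k -
      (k : ℂ) * (x 0 ^ a * x 1 ^ (b + 1)) *
        (4 * x 1 ^ 3 + 6 * x 0 * x 1 ^ 2 + 2 * c * x 0 ^ 2 * x 1) / fc c x ^ (k + 1) := by
  have h : (fun t : ℂ => e c a (b + 1) k s (Function.update x 1 t)) =
      fun t : ℂ => x 0 ^ a * t ^ (b + 1) /
        (x 0 ^ 3 + t ^ 4 + 2 * x 0 * t ^ 3 + c * x 0 ^ 2 * t ^ 2) ^ k := by
    funext t
    simp [e, fc]
  rw [pd, h]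
  exact deriv_quot (hasDerivAt_fc1 c (x 0) (x 1)) hf _ _ _

/-- `∇_x (x · x^a y^b / f^k)` -/
theorem act0_e (c : ℂ) (a b k : ℕ) (s : Fin 3 → ℂ) (x : Fin 2 → ℂ) (hx : x 0 ≠ 0)
    (hf : fc c x ≠ 0) :
    act (Fc c) 0 (e c (a + 1) b k) s x = ((a : ℂ) + 1 + s 0) * e c a b k s x +
      (s 2 - k) * (3 * e c (a + 3) b (k + 1) s x + 2 * e c (a + 1) (b + 3) (k + 1) s x +
        2 * c * e c (a + 2) (b + 2) (k + 1) s x) := by
  rw [act0, pd0_e c a b k s x hf]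
  simp only [e]
  generalize fc c x = z at hf
  field_simp
  ring

/-- `∇_y (y · x^a y^b / f^k)` -/
theorem act1_e (c : ℂ) (a b k : ℕ) (s : Fin 3 → ℂ) (x : Fin 2 → ℂ) (hy : x 1 ≠ 0)
    (hf : fc c x ≠ 0) :
    act (Fc c) 1 (e c a (b + 1) k) s x = ((b : ℂ) + 1 + s 1) * e c a b k s x +
      (s 2 - k) * (4 * e c a (b + 4) (k + 1) s x + 6 * e c (a + 1) (b + 3) (k + 1) s x +
        2 * c * e c (a + 2) (b + 2) (k + 1) s x) := by
  rw [act1, pd1_e c a b k s x hf]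
  simp only [e]
  generalize fc c x = z at hf
  field_simp
  ring

/-- `x^a y^b / f^k = x^a y^b f / f^(k+1)` -/
theorem e_up (c : ℂ) (a b k : ℕ) (s : Fin 3 → ℂ) (x : Fin 2 → ℂ) (hf : fc c x ≠ 0) :
    e c a b k s x = e c (a + 3) b (k + 1) s x + e c a (b + 4) (k + 1) s x +
      2 * e c (a + 1) (b + 3) (k + 1) s x + c * e c (a + 2) (b + 2) (k + 1) s x := by
  have h : x 0 ^ 3 + x 1 ^ 4 + 2 * x 0 * x 1 ^ 3 + c * x 0 ^ 2 * x 1 ^ 2 = fc c x := rfl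
  simp only [e]
  generalize fc c x = z at hf h
  field_simp
  rw [← h]
  ring

end Pool.Agent.W459.BS
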