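import Mathlib

set_option autoImplicit false

/-!
# Bernstein-Sato ideals of tuples of holomorphic functions on `ℂ^n`
-/

open scoped Topology
open MvPolynomial

namespace Pool.Agent.W459.BS

variable {n r : ℕ}

/-- The partial derivative of `g` with respect to `x_i` at the point `x` of `ℂ^n`. -/
noncomputable def pd (i : Fin n) (g : (Fin n → ℂ) → ℂ) (x : Fin n → ℂ) : ℂ :=
  deriv (fun t : ℂ => g (Function.update x i t)) (x i)

/-- A function `g (s, x)` stands for the formal symbol `g F^s`. This is the action of `∂_i`: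
`∂_i (g F^s) = (∂_i g + g ∑_j s_j (∂_i f_j) / f_j) F^s`. -/
noncomputable def act (F : Fin r → (Fin n → ℂ) → ℂ) (i : Fin n)
    (g : (Fin r → ℂ) → (Fin n → ℂ) → ℂ) : (Fin r → ℂ) → (Fin n → ℂ) → ℂ :=
  fun s x => pd i (g s) x + g s x * ∑ j, s j * (pd i (F j) x / F j x)

/-- `InD F p g` says that the germ at `p` of `g F^s` lies in the `D_{X,p}[s]`-module
`D_{X,p}[s] f_1 ⋯ f_r F^s`, where `X = ℂ^n`: this is the smallest set of germs that contains
`f_1 ⋯ f_r F^s` and is closed under addition, under multiplication by germs of holomorphic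
functions and by the variables `s_j`, and under the derivations `∂_i`. Two functions of `(s, x)`
represent the same germ if they agree for all `s` and all `x` near `p` with
`f_1(x) ⋯ f_r(x) ≠ 0`. -/
inductive InD (F : Fin r → (Fin n → ℂ) → ℂ) (p : Fin n → ℂ) :
    ((Fin r → ℂ) → (Fin n → ℂ) → ℂ) → Prop
  | gen : InD F p (fun _ x => ∏ j, F j x)
  | add {g h : (Fin r → ℂ) → (Fin n → ℂ) → ℂ} :
      InD F p g → InD F p h → InD F p (fun s x => g s x + h s x)
  | mul_fun {g : (Fin r → ℂ) → (Fin n → ℂ) → ℂ} {a : (Fin n → ℂ) → ℂ} :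
      AnalyticAt ℂ a p → InD F p g → InD F p (fun s x => a x * g s x)
  | mul_var {g : (Fin r → ℂ) → (Fin n → ℂ) → ℂ} (j : Fin r) :
      InD F p g → InD F p (fun s x => s j * g s x)
  | der {g : (Fin r → ℂ) → (Fin n → ℂ) → ℂ} (i : Fin n) : InD F p g → InD F p (act F i g)
  | congr {g h : (Fin r → ℂ) → (Fin n → ℂ) → ℂ} :
      (∀ᶠ x in 𝓝 p, (∏ j, F j x) ≠ 0 → ∀ s, g s x = h s x) → InD F p g → InD F p h

theorem InD.mul_poly {F : Fin r → (Fin n → ℂ) → ℂ} {p : Fin n → ℂ}
    {g : (Fin r → ℂ) → (Fin n → ℂ) → ℂ} (q : MvPolynomial (Fin r) ℂ) (hg : InD F p g) :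
    InD F p (fun s x => eval s q * g s x) := by
  induction q using MvPolynomial.induction_on with
  | C a =>
    refine InD.congr (Filter.Eventually.of_forall fun x _ s => ?_)
      (InD.mul_fun (a := fun _ => a) analyticAt_const hg)
    simp
  | add q q' hq hq' =>
    refine InD.congr (Filter.Eventually.of_forall fun x _ s => ?_) (InD.add hq hq')
    simp only [map_add]; ring
  | mul_X q j hq =>
    refine InD.congr (Filter.Eventually.of_forall fun x _ s => ?_) (InD.mul_var j hq)
    simp only [map_mul, eval_X]; ring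

/-- The Bernstein-Sato ideal `B_F` on the open set `W ⊆ ℂ^n`: all `b ∈ ℂ[s_1, …, s_r]` such that
`b(s) F^s ∈ D_X[s] f_1 ⋯ f_r F^s` on `W`, that is at every point `p` of `W`. -/
noncomputable def bsIdeal (F : Fin r → (Fin n → ℂ) → ℂ) (W : Set (Fin n → ℂ)) :
    Ideal (MvPolynomial (Fin r) ℂ) where
  carrier := {b | ∀ p ∈ W, InD F p (fun s _ => eval s b)}
  add_mem' {a b} ha hb p hp := by
    refine InD.congr (Filter.Eventually.of_forall fun x _ s => ?_) (InD.add (ha p hp) (hb p hp))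
    simp only [map_add]
  zero_mem' p _ := by
    refine InD.congr (Filter.Eventually.of_forall fun x _ s => ?_)
      (InD.mul_fun (a := fun _ => 0) analyticAt_const InD.gen)
    simp
  smul_mem' q b hb p hp := by
    refine InD.congr (Filter.Eventually.of_forall fun x _ s => ?_) (InD.mul_poly q (hb p hp))
    simp only [smul_eq_mul, map_mul]

theorem mem_bsIdeal {F : Fin r → (Fin n → ℂ) → ℂ} {W : Set (Fin n → ℂ)}
    {b : MvPolynomial (Fin r) ℂ} :
    b ∈ bsIdeal F W ↔ ∀ p ∈ W, InD F p (fun s _ => eval s b) := Iff.rfl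

/-- The common zero set in `ℂ^r` of a set of polynomials. -/
def zeroSet (B : Set (MvPolynomial (Fin r) ℂ)) : Set (Fin r → ℂ) :=
  {s | ∀ b ∈ B, eval s b = 0}

/-- Algebraic subsets of `ℂ^r`. -/
def IsAlgebraicSet (Z : Set (Fin r → ℂ)) : Prop :=
  ∃ B : Set (MvPolynomial (Fin r) ℂ), Z = zeroSet B

/-- Irreducible algebraic subsets of `ℂ^r`. -/
def IsIrreducibleSet (Z : Set (Fin r → ℂ)) : Prop :=
  IsAlgebraicSet Z ∧ Z.Nonempty ∧ ∀ Z₁ Z₂ : Set (Fin r → ℂ), IsAlgebraicSet Z₁ →
    IsAlgebraicSet Z₂ → Z ⊆ Z₁ ∪ Z₂ → Z ⊆ Z₁ ∨ Z ⊆ Z₂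

/-- `V` is an irreducible component of the algebraic set `Z`: a maximal irreducible algebraic
subset of `Z`. -/
def IsComponent (Z V : Set (Fin r → ℂ)) : Prop :=
  IsIrreducibleSet V ∧ V ⊆ Z ∧
    ∀ V' : Set (Fin r → ℂ), IsIrreducibleSet V' → V' ⊆ Z → V ⊆ V' → V' = V

/-- `V` is a rational affine subspace `a + L` of `ℂ^r`: the point `a` has rational coordinates and
the linear subspace `L` is cut out by linear equations with rational coefficients. -/
def IsRationalAffine (V : Set (Fin r → ℂ)) : Prop :=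
  ∃ (a : Fin r → ℚ) (E : Set (Fin r → ℚ)),
    V = {s | ∀ e ∈ E, ∑ i, (e i : ℂ) * (s i - (a i : ℂ)) = 0}

/-! ### Irreducible components through a point -/

theorem exists_component (B : Ideal (MvPolynomial (Fin r) ℂ)) (s : Fin r → ℂ)
    (hs : s ∈ zeroSet (B : Set (MvPolynomial (Fin r) ℂ))) :
    ∃ V, IsComponent (zeroSet (B : Set (MvPolynomial (Fin r) ℂ))) V ∧ s ∈ V := by
  classical
  set m : Ideal (MvPolynomial (Fin r) ℂ) := RingHom.ker (eval s : MvPolynomial (Fin r) ℂ →+* ℂ)
    with hm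
  have hmp : m.IsPrime := RingHom.ker_isPrime _
  have hBm : B ≤ m := fun b hb => (RingHom.mem_ker).2 (hs b hb)
  obtain ⟨P, hP, hPm⟩ := Ideal.exists_minimalPrimes_le hBm
  have hPp : P.IsPrime := hP.1.1
  have hBP : B ≤ P := hP.1.2
  -- vanishing ideal of the zero set of a prime
  have nss : ∀ Q : Ideal (MvPolynomial (Fin r) ℂ), Q.IsPrime → ∀ b : MvPolynomial (Fin r) ℂ,
      (∀ t ∈ zeroSet (Q : Set (MvPolynomial (Fin r) ℂ)), eval t b = 0) → b ∈ Q := by
    intro Q hQ b hb
    have h1 : b ∈ vanishingIdeal ℂ (zeroLocus ℂ Q) := by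
      rw [mem_vanishingIdeal_iff]
      intro x hx
      have := hb x (fun q hq => by
        have := (mem_zeroLocus_iff.1 hx) q hq
        simpa [aeval_eq_eval] using this)
      simpa [aeval_eq_eval] using this
    rw [vanishingIdeal_zeroLocus_eq_radical, hQ.isRadical.radical] at h1
    exact h1
  refine ⟨zeroSet (P : Set (MvPolynomial (Fin r) ℂ)), ⟨⟨⟨_, rfl⟩, ⟨s, fun b hb => ?_⟩, ?_⟩, ?_, ?_⟩,
    fun b hb => ?_⟩
  · exact (RingHom.mem_ker).1 (hPm hb)
  · rintro Z₁ Z₂ ⟨B₁, rfl⟩ ⟨B₂, rfl⟩ h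
    by_contra hcon
    push Not at hcon
    obtain ⟨h1, h2⟩ := hcon
    obtain ⟨x₁, hx₁, hx₁'⟩ := Set.not_subset.1 h1
    obtain ⟨x₂, hx₂, hx₂'⟩ := Set.not_subset.1 h2
    simp only [zeroSet, Set.mem_setOf_eq, not_forall] at hx₁' hx₂'
    obtain ⟨b₁, hb₁, hb₁'⟩ := hx₁'
    obtain ⟨b₂, hb₂, hb₂'⟩ := hx₂'
    have hmul : b₁ * b₂ ∈ P := by
      apply nss P hPp
      intro t ht
      rw [map_mul]
      rcases h ht with h' | h'
      · rw [h' b₁ hb₁, zero_mul]
      · rw [h' b₂ hb₂, mul_zero]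
    rcases hPp.mem_or_mem hmul with h' | h'
    · exact hb₁' (hx₁ b₁ h')
    · exact hb₂' (hx₂ b₂ h')
  · intro t ht b hb
    exact ht b (hBP hb)
  · rintro V' ⟨⟨S, rfl⟩, hne, hirr⟩ hV' hV
    -- the vanishing ideal of V'
    let Q : Ideal (MvPolynomial (Fin r) ℂ) :=
      { carrier := {b | ∀ t ∈ zeroSet S, eval t b = 0}
        add_mem' := by
          intro a b ha hb t ht
          rw [map_add, ha t ht, hb t ht, add_zero]
        zero_mem' := by
          intro t ht
          rw [map_zero]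
        smul_mem' := by
          intro q b hb t ht
          rw [smul_eq_mul, map_mul, hb t ht, mul_zero] }
    have hQmem : ∀ b, b ∈ Q ↔ ∀ t ∈ zeroSet S, eval t b = 0 := fun b => Iff.rfl
    have hQp : Q.IsPrime := by
      refine ⟨?_, ?_⟩
      · intro htop
        obtain ⟨t, ht⟩ := hne
        have : (1 : MvPolynomial (Fin r) ℂ) ∈ Q := by rw [htop]; exact Submodule.mem_top
        have := (hQmem 1).1 this t ht
        rw [map_one] at this
        exact one_ne_zero this
      · intro a b hab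
        have h := hirr (zeroSet {a}) (zeroSet {b}) ⟨_, rfl⟩ ⟨_, rfl⟩ (by
          intro t ht
          have := (hQmem _).1 hab t ht
          rw [map_mul] at this
          rcases mul_eq_zero.1 this with h' | h'
          · left; intro q hq; rw [Set.mem_singleton_iff.1 hq]; exact h'
          · right; intro q hq; rw [Set.mem_singleton_iff.1 hq]; exact h')
        rcases h with h | h
        · left; intro t ht; exact h ht a rfl
        · right; intro t ht; exact h ht b rfl
    have hBQ : B ≤ Q := fun b hb t ht => hV' ht b hb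
    have hQP : Q ≤ P := by
      intro b hb
      exact nss P hPp b (fun t ht => hb t (hV ht))
    have hPQ : P ≤ Q := hP.2 ⟨hQp, hBQ⟩ hQP
    apply Set.Subset.antisymm _ hV
    intro t ht b hb
    exact hPQ hb t ht
  · exact (RingHom.mem_ker).1 (hPm hb)

end Pool.Agent.W459.BS
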