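import Pool.Agent.W459.BS.Torus

set_option autoImplicit false

open scoped Topology Real
open MvPolynomial

namespace Pool.Agent.W459.BS

/-- `w = f / y^4` -/
noncomputable def wf (c : ℂ) (x : Fin 2 → ℂ) : ℂ := fc c x / x 1 ^ 4

/-- the single valued branch of `F^s` at `s = s1` -/
noncomputable def Phi (c : ℂ) (x : Fin 2 → ℂ) : ℂ :=
  (x 0)⁻¹ ^ 4 * (x 1)⁻¹ ^ 4 * (wf c x) ^ (-c / 2)

theorem slit_of (z : ℂ) (h : ‖z - 1‖ < 1) : z ∈ Complex.slitPlane := by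
  have := Complex.mem_slitPlane_of_norm_lt_one h
  simpa using this

theorem analyticAt_fc (c : ℂ) (x : Fin 2 → ℂ) : AnalyticAt ℂ (fc c) x := by
  have h0 : AnalyticAt ℂ (fun x : Fin 2 → ℂ => x 0) x :=
    (ContinuousLinearMap.proj (R := ℂ) (φ := fun _ : Fin 2 => ℂ) 0).analyticAt x
  have h1 : AnalyticAt ℂ (fun x : Fin 2 → ℂ => x 1) x :=
    (ContinuousLinearMap.proj (R := ℂ) (φ := fun _ : Fin 2 => ℂ) 1).analyticAt x
  exact (((h0.pow 3).add (h1.pow 4)).add ((analyticAt_const.mul h0).mul (h1.pow 3))).add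
    ((analyticAt_const.mul (h0.pow 2)).mul (h1.pow 2))

theorem analyticAt_x0 (x : Fin 2 → ℂ) : AnalyticAt ℂ (fun x : Fin 2 → ℂ => x 0) x :=
    (ContinuousLinearMap.proj (R := ℂ) (φ := fun _ : Fin 2 => ℂ) 0).analyticAt x

theorem analyticAt_x1 (x : Fin 2 → ℂ) : AnalyticAt ℂ (fun x : Fin 2 → ℂ => x 1) x :=
    (ContinuousLinearMap.proj (R := ℂ) (φ := fun _ : Fin 2 => ℂ) 1).analyticAt x

theorem analyticAt_wf (c : ℂ) (x : Fin 2 → ℂ) (h1 : x 1 ≠ 0) : AnalyticAt ℂ (wf c) x :=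
  (analyticAt_fc c x).div ((analyticAt_x1 x).pow 4) (pow_ne_zero 4 h1)

theorem analyticAt_Phi (c : ℂ) (x : Fin 2 → ℂ) (h0 : x 0 ≠ 0) (h1 : x 1 ≠ 0)
    (hw : ‖wf c x - 1‖ < 1) : AnalyticAt ℂ (Phi c) x :=
  ((((analyticAt_x0 x).inv h0).pow 4).mul (((analyticAt_x1 x).inv h1).pow 4)).mul
    ((analyticAt_wf c x h1).cpow analyticAt_const (slit_of _ hw))

theorem wf_ne (c : ℂ) (x : Fin 2 → ℂ) (hw : ‖wf c x - 1‖ < 1) : wf c x ≠ 0 :=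
  Complex.slitPlane_ne_zero (slit_of _ hw)

theorem fc_ne (c : ℂ) (x : Fin 2 → ℂ) (hw : ‖wf c x - 1‖ < 1) : fc c x ≠ 0 := by
  intro h
  apply wf_ne c x hw
  rw [wf, h, zero_div]

/-- logarithmic derivatives of `Phi` -/
theorem pd_Phi (c : ℂ) (x : Fin 2 → ℂ) (h0 : x 0 ≠ 0) (h1 : x 1 ≠ 0)
    (hw : ‖wf c x - 1‖ < 1) (i : Fin 2) :
    pd i (Phi c) x = Phi c x * ∑ j, s1 c j * (pd i (Fc c j) x / Fc c j x) := by
  have hf := fc_ne c x hw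
  have hwn := wf_ne c x hw
  have hpow : (wf c x) ^ (-c / 2 - 1) = (wf c x) ^ (-c / 2) / wf c x := by
    rw [Complex.cpow_sub _ _ hwn, Complex.cpow_one]
  fin_cases i
  · change pd 0 (Phi c) x = Phi c x * ∑ j, s1 c j * (pd 0 (Fc c j) x / Fc c j x)
    rw [Fin.sum_univ_three, pd_F00, pd_F01, pd_F02]
    have e0 : Fc c 0 x = x 0 := rfl
    have e2 : Fc c 2 x = fc c x := rfl
    have s0 : s1 c 0 = -4 := rfl
    have s2 : s1 c 2 = -c / 2 := rfl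
    rw [e0, e2, s0, s2]
    have hfun : (fun t : ℂ => Phi c (Function.update x 0 t)) = fun t : ℂ => t⁻¹ ^ 4 * (x 1)⁻¹ ^ 4 *
        ((t ^ 3 + x 1 ^ 4 + 2 * t * x 1 ^ 3 + c * t ^ 2 * x 1 ^ 2) / x 1 ^ 4) ^ (-c / 2) := by
      funext t
      simp [Phi, wf, fc]
    rw [pd, hfun]
    have hslit : (x 0 ^ 3 + x 1 ^ 4 + 2 * x 0 * x 1 ^ 3 + c * x 0 ^ 2 * x 1 ^ 2) / x 1 ^ 4 ∈
        Complex.slitPlane := slit_of _ hw
    have d1 := ((hasDerivAt_inv h0).pow 4).mul_const ((x 1)⁻¹ ^ 4)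
    have d2 := ((hasDerivAt_fc0 c (x 1) (x 0)).div_const (x 1 ^ 4)).cpow_const
      (c := -c / 2) hslit
    refine Eq.trans (HasDerivAt.deriv (d1.mul d2)) ?_
    have hpow' : ((x 0 ^ 3 + x 1 ^ 4 + 2 * x 0 * x 1 ^ 3 + c * x 0 ^ 2 * x 1 ^ 2) / x 1 ^ 4) ^
      (-c / 2 - 1) = (wf c x) ^ (-c / 2) / wf c x := hpow
    rw [hpow']
    have hwf : (x 0 ^ 3 + x 1 ^ 4 + 2 * x 0 * x 1 ^ 3 + c * x 0 ^ 2 * x 1 ^ 2) / x 1 ^ 4 =
      wf c x := rfl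
    simp only [Pi.pow_apply, hwf, Phi, Nat.reduceSub, Nat.cast_ofNat]
    generalize (wf c x) ^ (-c / 2) = W
    have hwf2 : wf c x = fc c x / x 1 ^ 4 := rfl
    rw [hwf2]
    generalize fc c x = z at hf
    field_simp
    ring
  · change pd 1 (Phi c) x = Phi c x * ∑ j, s1 c j * (pd 1 (Fc c j) x / Fc c j x)
    rw [Fin.sum_univ_three, pd_F10, pd_F11, pd_F12]
    have e1 : Fc c 1 x = x 1 := rfl
    have e2 : Fc c 2 x = fc c x := rfl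
    have s1' : s1 c 1 = 2 * c - 4 := rfl
    have s2 : s1 c 2 = -c / 2 := rfl
    rw [e1, e2, s1', s2]
    have hfun : (fun t : ℂ => Phi c (Function.update x 1 t)) = fun t : ℂ => (x 0)⁻¹ ^ 4 * t⁻¹ ^ 4 *
        ((x 0 ^ 3 + t ^ 4 + 2 * x 0 * t ^ 3 + c * x 0 ^ 2 * t ^ 2) / t ^ 4) ^ (-c / 2) := by
      funext t
      simp [Phi, wf, fc]
    rw [pd, hfun]
    have hslit : (x 0 ^ 3 + x 1 ^ 4 + 2 * x 0 * x 1 ^ 3 + c * x 0 ^ 2 * x 1 ^ 2) / x 1 ^ 4 ∈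
        Complex.slitPlane := slit_of _ hw
    have d1 := ((hasDerivAt_inv h1).pow 4).const_mul ((x 0)⁻¹ ^ 4)
    have d2 := ((hasDerivAt_fc1 c (x 0) (x 1)).div ((hasDerivAt_id (x 1)).pow 4)
      (pow_ne_zero 4 h1)).cpow_const (c := -c / 2) hslit
    refine Eq.trans (HasDerivAt.deriv (d1.mul d2)) ?_
    have hwf : (x 0 ^ 3 + x 1 ^ 4 + 2 * x 0 * x 1 ^ 3 + c * x 0 ^ 2 * x 1 ^ 2) / x 1 ^ 4 =
      wf c x := rfl
    simp only [Pi.pow_apply, Pi.div_apply, id_eq, hwf, Phi, hpow, Nat.reduceSub, Nat.cast_ofNat]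
    generalize (wf c x) ^ (-c / 2) = W
    have hfc : x 0 ^ 3 + x 1 ^ 4 + 2 * x 0 * x 1 ^ 3 + c * x 0 ^ 2 * x 1 ^ 2 = fc c x := rfl
    have hwf2 : wf c x = fc c x / x 1 ^ 4 := rfl
    rw [hwf2, hfc]
    generalize fc c x = z at hf
    field_simp
    ring

/-- small tori are in the good region -/
theorem near (c : ℂ) {P : (Fin 2 → ℂ) → Prop} (hP : ∀ᶠ x in 𝓝 (0 : Fin 2 → ℂ), P x) :
    ∀ᶠ ρ₂ in 𝓝[>] (0 : ℝ), ∀ᶠ ρ₁ in 𝓝[>] (0 : ℝ), 0 < ρ₁ ∧ 0 < ρ₂ ∧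
      (∀ x : Fin 2 → ℂ, ‖x 0‖ ≤ ρ₁ → ‖x 1‖ ≤ ρ₂ → P x) ∧
      (∀ x : Fin 2 → ℂ, ‖x 0‖ ≤ ρ₁ → ‖x 1‖ = ρ₂ → ‖wf c x - 1‖ < 1) := by
  obtain ⟨ε, hε, hPε⟩ := Metric.eventually_nhds_iff.1 hP
  have h2 : ∀ᶠ ρ₂ in 𝓝[>] (0 : ℝ), 0 < ρ₂ ∧ ρ₂ < ε :=
    Ioo_mem_nhdsGT hε
  filter_upwards [h2] with ρ₂ hρ₂
  have hcont : Filter.Tendsto (fun t : ℝ => 2 * (t / ρ₂) + ‖c‖ * (t / ρ₂) ^ 2 + t ^ 3 / ρ₂ ^ 4)
      (𝓝[>] (0 : ℝ)) (𝓝 0) := by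
    have : Filter.Tendsto (fun t : ℝ => 2 * (t / ρ₂) + ‖c‖ * (t / ρ₂) ^ 2 + t ^ 3 / ρ₂ ^ 4)
        (𝓝 (0 : ℝ)) (𝓝 (2 * (0 / ρ₂) + ‖c‖ * (0 / ρ₂) ^ 2 + 0 ^ 3 / ρ₂ ^ 4)) := by
      apply Continuous.tendsto
      fun_prop
    simp only [zero_div, mul_zero, ne_eq, OfNat.ofNat_ne_zero, not_false_eq_true, zero_pow,
      add_zero] at this
    exact this.mono_left nhdsWithin_le_nhds
  have h1 : ∀ᶠ ρ₁ in 𝓝[>] (0 : ℝ), 2 * (ρ₁ / ρ₂) + ‖c‖ * (ρ₁ / ρ₂) ^ 2 + ρ₁ ^ 3 / ρ₂ ^ 4 < 1 :=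
    hcont.eventually (gt_mem_nhds one_pos)
  have h1' : ∀ᶠ ρ₁ in 𝓝[>] (0 : ℝ), 0 < ρ₁ ∧ ρ₁ < ε := Ioo_mem_nhdsGT hε
  filter_upwards [h1, h1'] with ρ₁ hρ₁ hρ₁'
  refine ⟨hρ₁'.1, hρ₂.1, fun x hx0 hx1 => ?_, fun x hx0 hx1 => ?_⟩
  · apply hPε
    rw [dist_zero_right, pi_norm_lt_iff hε]
    intro i
    fin_cases i
    · exact lt_of_le_of_lt hx0 hρ₁'.2
    · exact lt_of_le_of_lt hx1 hρ₂.2
  · have hy : x 1 ≠ 0 := by
      intro h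
      rw [h, norm_zero] at hx1
      linarith [hρ₂.1]
    have hw : wf c x - 1 = 2 * (x 0 / x 1) + c * (x 0 / x 1) ^ 2 + x 0 ^ 3 / x 1 ^ 4 := by
      unfold wf fc
      field_simp
      ring
    rw [hw]
    refine lt_of_le_of_lt ?_ hρ₁
    refine (norm_add_le _ _).trans (add_le_add ((norm_add_le _ _).trans (add_le_add ?_ ?_)) ?_)
    · rw [norm_mul, norm_div, hx1]
      have : ‖(2 : ℂ)‖ = 2 := by simp
      rw [this]
      have := hρ₂.1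
      gcongr
    · rw [norm_mul, norm_pow, norm_div, hx1]
      have := hρ₂.1
      gcongr
    · rw [norm_div, norm_pow, norm_pow, hx1]
      have := hρ₂.1
      gcongr

/-- third order residue -/
theorem residue3 {h : ℂ → ℂ} {ρ : ℝ} (hρ : 0 < ρ) (hh : ∀ x : ℂ, ‖x‖ ≤ ρ → AnalyticAt ℂ h x) :
    (∮ x in C(0, ρ), x⁻¹ ^ 3 * h x) = π * Complex.I * deriv (deriv h) 0 := by
  have hsph : ∀ x ∈ Metric.sphere (0 : ℂ) ρ, x ≠ 0 ∧ ‖x‖ ≤ ρ := by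
    intro x hx
    have : ‖x‖ = ρ := by simpa using hx
    refine ⟨?_, this.le⟩
    intro h0
    rw [h0, norm_zero] at this
    linarith
  have hd : ∀ x : ℂ, ‖x‖ ≤ ρ → AnalyticAt ℂ (deriv h) x := fun x hx => (hh x hx).deriv
  have hdd : ∀ x : ℂ, ‖x‖ ≤ ρ → AnalyticAt ℂ (deriv (deriv h)) x := fun x hx => (hd x hx).deriv
  have hci : ∀ (u : ℂ → ℂ), (∀ x : ℂ, ‖x‖ ≤ ρ → AnalyticAt ℂ u x) → ∀ n : ℕ,
      CircleIntegrable (fun x => x⁻¹ ^ n * u x) 0 ρ := by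
    intro u hu n
    apply ContinuousOn.circleIntegrable hρ.le
    intro x hx
    obtain ⟨hx0, hxρ⟩ := hsph x hx
    exact ((continuousAt_id.inv₀ hx0).pow n |>.mul (hu x hxρ).continuousAt).continuousWithinAt
  have e1 : (∮ x in C(0, ρ), ((x⁻¹ ^ 2 * deriv h x) - 2 * (x⁻¹ ^ 3 * h x))) = 0 := by
    refine circleIntegral.integral_eq_zero_of_hasDerivWithinAt hρ.le
      (f := fun x => x⁻¹ ^ 2 * h x) (fun x hx => HasDerivAt.hasDerivWithinAt ?_)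
    obtain ⟨hx0, hxρ⟩ := hsph x hx
    have := ((hasDerivAt_inv hx0).pow 2).mul (hh x hxρ).differentiableAt.hasDerivAt
    refine this.congr_deriv ?_
    simp only [Pi.pow_apply, Nat.reduceSub, Nat.cast_ofNat]
    field_simp
    ring
  have e2 : (∮ x in C(0, ρ), ((x⁻¹ ^ 1 * deriv (deriv h) x) - (x⁻¹ ^ 2 * deriv h x))) = 0 := by
    refine circleIntegral.integral_eq_zero_of_hasDerivWithinAt hρ.le
      (f := fun x => x⁻¹ * deriv h x) (fun x hx => HasDerivAt.hasDerivWithinAt ?_)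
    obtain ⟨hx0, hxρ⟩ := hsph x hx
    have := (hasDerivAt_inv hx0).mul (hd x hxρ).differentiableAt.hasDerivAt
    refine this.congr_deriv ?_
    field_simp
    ring
  have hci2 : CircleIntegrable (fun x => 2 * (x⁻¹ ^ 3 * h x)) 0 ρ := by
    have := (hci _ hh 3).const_fun_smul (a := (2 : ℂ))
    simpa only [smul_eq_mul] using this
  rw [circleIntegral.integral_sub (hci _ hd 2) hci2, circleIntegral.integral_const_mul] at e1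
  rw [circleIntegral.integral_sub (hci _ hdd 1) (hci _ hd 2)] at e2
  have e3 : (∮ x in C(0, ρ), (x⁻¹ ^ 1 * deriv (deriv h) x)) =
      2 * π * Complex.I * deriv (deriv h) 0 := by
    have hD : DifferentiableOn ℂ (deriv (deriv h)) (Metric.closedBall 0 ρ) := fun x hx =>
      (hdd x (by simpa using hx)).differentiableAt.differentiableWithinAt
    have := hD.circleIntegral_sub_inv_smul (w := 0) (Metric.mem_ball_self hρ)
    simp only [sub_zero, smul_eq_mul] at this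
    simpa using this
  linear_combination (-1 / 2) * e1 + (-1 / 2) * e2 + (1 / 2) * e3

end Pool.Agent.W459.BS
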