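import Pool.Agent.W459.BS.Alg

set_option autoImplicit false

open scoped Topology Real
open MvPolynomial

namespace Pool.Agent.W459.BS

/-! ### Partial derivatives of analytic functions -/

section pd
variable {n : ℕ}

theorem hasDerivAt_upd {g : (Fin n → ℂ) → ℂ} {x : Fin n → ℂ} (hg : DifferentiableAt ℂ g x)
    (i : Fin n) : HasDerivAt (fun t : ℂ => g (Function.update x i t))
      (fderiv ℂ g x (Pi.single i 1)) (x i) := by
  have h1 : HasDerivAt (fun t : ℂ => Function.update x i t) (Pi.single i (1 : ℂ)) (x i) :=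
    hasDerivAt_update x i (x i)
  have h2 : HasFDerivAt g (fderiv ℂ g x) (Function.update x i (x i)) := by
    rw [Function.update_eq_self]
    exact hg.hasFDerivAt
  exact h2.comp_hasDerivAt (x i) h1

theorem pd_eq_fderiv {g : (Fin n → ℂ) → ℂ} {x : Fin n → ℂ} (hg : DifferentiableAt ℂ g x)
    (i : Fin n) : pd i g x = fderiv ℂ g x (Pi.single i 1) :=
  (hasDerivAt_upd hg i).deriv

theorem hasDerivAt_pd {g : (Fin n → ℂ) → ℂ} {x : Fin n → ℂ} (hg : DifferentiableAt ℂ g x)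
    (i : Fin n) : HasDerivAt (fun t : ℂ => g (Function.update x i t)) (pd i g x) (x i) := by
  rw [pd_eq_fderiv hg]
  exact hasDerivAt_upd hg i

theorem analyticAt_pd {g : (Fin n → ℂ) → ℂ} {x : Fin n → ℂ} (hg : AnalyticAt ℂ g x)
    (i : Fin n) : AnalyticAt ℂ (pd i g) x := by
  have h1 : AnalyticAt ℂ (fun y => fderiv ℂ g y (Pi.single i 1)) x :=
    ((ContinuousLinearMap.apply ℂ ℂ (Pi.single i (1 : ℂ) : Fin n → ℂ)).analyticAt _).comp hg.fderiv
  refine h1.congr ?_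
  filter_upwards [hg.eventually_analyticAt] with y hy
  exact (pd_eq_fderiv hy.differentiableAt i).symm

theorem pd_mul {u v : (Fin n → ℂ) → ℂ} {x : Fin n → ℂ} (hu : DifferentiableAt ℂ u x)
    (hv : DifferentiableAt ℂ v x) (i : Fin n) :
    pd i (fun y => u y * v y) x = pd i u x * v x + u x * pd i v x := by
  have h := (hasDerivAt_pd hu i).mul (hasDerivAt_pd hv i)
  have h' := h.deriv
  simp only [Function.update_eq_self] at h'
  exact h'

end pd

/-! ### Integrals over a torus in `ℂ^2` -/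

/-- the integral over the torus of radii `ρ₁`, `ρ₂` -/
noncomputable def J (ρ₁ ρ₂ : ℝ) (G : (Fin 2 → ℂ) → ℂ) : ℂ := torusIntegral G 0 ![ρ₁, ρ₂]

variable {ρ₁ ρ₂ : ℝ} {G : (Fin 2 → ℂ) → ℂ}

theorem norm_torus (h1 : 0 ≤ ρ₁) (h2 : 0 ≤ ρ₂) (θ : Fin 2 → ℝ) :
    ‖torusMap 0 ![ρ₁, ρ₂] θ 0‖ = ρ₁ ∧ ‖torusMap 0 ![ρ₁, ρ₂] θ 1‖ = ρ₂ := by
  constructor
  · simp [torusMap, abs_of_nonneg h1, Complex.norm_exp_ofReal_mul_I]
  · simp [torusMap, abs_of_nonneg h2, Complex.norm_exp_ofReal_mul_I]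

theorem torusInt (h1 : 0 ≤ ρ₁) (h2 : 0 ≤ ρ₂)
    (hG : ∀ x : Fin 2 → ℂ, ‖x 0‖ = ρ₁ → ‖x 1‖ = ρ₂ → ContinuousAt G x) :
    TorusIntegrable G 0 ![ρ₁, ρ₂] := by
  have hc : Continuous (fun θ : Fin 2 → ℝ => torusMap (0 : Fin 2 → ℂ) ![ρ₁, ρ₂] θ) := by
    unfold torusMap
    fun_prop
  refine ContinuousOn.integrableOn_compact isCompact_Icc ?_
  intro θ _
  have := hG _ (norm_torus h1 h2 θ).1 (norm_torus h1 h2 θ).2
  exact (ContinuousAt.comp (f := fun θ : Fin 2 → ℝ => torusMap (0 : Fin 2 → ℂ) ![ρ₁, ρ₂] θ)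
    this hc.continuousAt).continuousWithinAt

theorem insert_one (x y : ℂ) : (Fin.insertNth (1 : Fin 2) y (fun _ : Fin 1 => x) : Fin 2 → ℂ) =
    ![x, y] := by
  funext i
  fin_cases i <;> rfl

theorem insert_zero (x y : ℂ) : (Fin.insertNth (0 : Fin 2) x (fun _ : Fin 1 => y) : Fin 2 → ℂ) =
    ![x, y] := by
  funext i
  fin_cases i <;> rfl

theorem J_eq_yx (hG : TorusIntegrable G 0 ![ρ₁, ρ₂]) :
    J ρ₁ ρ₂ G = ∮ y in C(0, ρ₂), ∮ x in C(0, ρ₁), G ![x, y] := by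
  have h := torusIntegral_succAbove hG (1 : Fin 2)
  rw [J, h]
  simp only [torusIntegral_dim1, insert_one]
  rfl

theorem J_eq_xy (hG : TorusIntegrable G 0 ![ρ₁, ρ₂]) :
    J ρ₁ ρ₂ G = ∮ x in C(0, ρ₁), ∮ y in C(0, ρ₂), G ![x, y] := by
  have h := torusIntegral_succAbove hG (0 : Fin 2)
  rw [J, h]
  simp only [torusIntegral_dim1, insert_zero]
  rfl

theorem upd0 (x y t : ℂ) : Function.update (![x, y] : Fin 2 → ℂ) 0 t = ![t, y] := by
  funext i
  fin_cases i <;> rfl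

theorem upd1 (x y t : ℂ) : Function.update (![x, y] : Fin 2 → ℂ) 1 t = ![x, t] := by
  funext i
  fin_cases i <;> rfl

/-- derivatives have zero integral -/
theorem J_pd (h1 : 0 < ρ₁) (h2 : 0 < ρ₂)
    (hG : ∀ x : Fin 2 → ℂ, ‖x 0‖ = ρ₁ → ‖x 1‖ = ρ₂ → AnalyticAt ℂ G x) (i : Fin 2) :
    J ρ₁ ρ₂ (pd i G) = 0 := by
  have hint : TorusIntegrable (pd i G) 0 ![ρ₁, ρ₂] :=
    torusInt h1.le h2.le (fun x hx hy => (analyticAt_pd (hG x hx hy) i).continuousAt)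
  fin_cases i
  · rw [J_eq_yx hint]
    have : ∀ y ∈ Metric.sphere (0 : ℂ) ρ₂, (∮ x in C(0, ρ₁), pd 0 G ![x, y]) = 0 := by
      intro y hy
      refine circleIntegral.integral_eq_zero_of_hasDerivWithinAt h1.le
        (f := fun x => G ![x, y]) (fun x hx => HasDerivAt.hasDerivWithinAt ?_)
      have h := hasDerivAt_pd (hG ![x, y] (by simpa using hx) (by simpa using hy)).differentiableAt 0
      simp only [upd0] at h
      exact h
    have h0 : (∮ y in C(0, ρ₂), ∮ x in C(0, ρ₁), pd 0 G ![x, y]) = ∮ y in C(0, ρ₂), (0 : ℂ) :=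
      circleIntegral.integral_congr h2.le this
    refine h0.trans ?_
    simp [circleIntegral]
  · rw [J_eq_xy hint]
    have : ∀ x ∈ Metric.sphere (0 : ℂ) ρ₁, (∮ y in C(0, ρ₂), pd 1 G ![x, y]) = 0 := by
      intro x hx
      refine circleIntegral.integral_eq_zero_of_hasDerivWithinAt h2.le
        (f := fun y => G ![x, y]) (fun y hy => HasDerivAt.hasDerivWithinAt ?_)
      have h := hasDerivAt_pd (hG ![x, y] (by simpa using hx) (by simpa using hy)).differentiableAt 1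
      simp only [upd1] at h
      exact h
    have h0 : (∮ x in C(0, ρ₁), ∮ y in C(0, ρ₂), pd 1 G ![x, y]) = ∮ x in C(0, ρ₁), (0 : ℂ) :=
      circleIntegral.integral_congr h1.le this
    refine h0.trans ?_
    simp [circleIntegral]

theorem J_congr {G' : (Fin 2 → ℂ) → ℂ} (h1 : 0 ≤ ρ₁) (h2 : 0 ≤ ρ₂)
    (h : ∀ x : Fin 2 → ℂ, ‖x 0‖ = ρ₁ → ‖x 1‖ = ρ₂ → G x = G' x) : J ρ₁ ρ₂ G = J ρ₁ ρ₂ G' := by
  unfold J torusIntegral
  congr 1
  funext θ
  rw [h _ (norm_torus h1 h2 θ).1 (norm_torus h1 h2 θ).2]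

end Pool.Agent.W459.BS
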