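import Pool.Agent.W459.BS.Weight

set_option autoImplicit false

open scoped Topology
open MvPolynomial

namespace Pool.Agent.W459.BS

variable {c : ℂ} {H : Set Fn}

theorem pd0_gen (c : ℂ) (x : Fin 2 → ℂ) : pd 0 (fun x => x 0 * x 1 * fc c x) x =
    x 1 * fc c x + x 0 * x 1 * (3 * x 0 ^ 2 + 2 * x 1 ^ 3 + 2 * c * x 0 * x 1 ^ 2) := by
  have h : (fun t : ℂ => (fun x : Fin 2 → ℂ => x 0 * x 1 * fc c x) (Function.update x 0 t)) =
      fun t : ℂ => t * x 1 * (t ^ 3 + x 1 ^ 4 + 2 * t * x 1 ^ 3 + c * t ^ 2 * x 1 ^ 2) := by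
    funext t
    simp [fc]
  rw [pd, h]
  have h1 := ((hasDerivAt_id (x 0)).mul_const (x 1)).mul (hasDerivAt_fc0 c (x 1) (x 0))
  refine Eq.trans (HasDerivAt.deriv h1) ?_
  simp only [id_eq, fc]
  ring

theorem pd1_gen (c : ℂ) (x : Fin 2 → ℂ) : pd 1 (fun x => x 0 * x 1 * fc c x) x =
    x 0 * fc c x + x 0 * x 1 * (4 * x 1 ^ 3 + 6 * x 0 * x 1 ^ 2 + 2 * c * x 0 ^ 2 * x 1) := by
  have h : (fun t : ℂ => (fun x : Fin 2 → ℂ => x 0 * x 1 * fc c x) (Function.update x 1 t)) =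
      fun t : ℂ => x 0 * t * (x 0 ^ 3 + t ^ 4 + 2 * x 0 * t ^ 3 + c * x 0 ^ 2 * t ^ 2) := by
    funext t
    simp [fc]
  rw [pd, h]
  have h1 := ((hasDerivAt_id (x 1)).const_mul (x 0)).mul (hasDerivAt_fc1 c (x 0) (x 1))
  refine Eq.trans (HasDerivAt.deriv h1) ?_
  simp only [id_eq, fc]
  ring

/-- the unit `s_0 + 1` -/
theorem unit_s0 (c : ℂ) : eval (s1 c) (X 0 + C 1) ≠ 0 := by
  simp only [map_add, eval_X, eval_C, s1]
  change (-4 : ℂ) + 1 ≠ 0
  norm_num

theorem unit_s1 (hc : ∀ q : ℚ, c ≠ q) : eval (s1 c) (X 1 + C 1) ≠ 0 := by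
  simp only [map_add, eval_X, eval_C, s1]
  change (2 * c - 4 : ℂ) + 1 ≠ 0
  intro h
  apply hc (3 / 2)
  push_cast
  linear_combination (1 / 2) * h

theorem unit_s2' (hc : ∀ q : ℚ, c ≠ q) : eval (s1 c) (X 2 + C 1) ≠ 0 := by
  simp only [map_add, eval_X, eval_C, s1]
  change (-c / 2 : ℂ) + 1 ≠ 0
  intro h
  apply hc 2
  push_cast
  linear_combination (-2) * h

/-- what follows from `x y f ∈ H` -/
theorem Closed.base (hH : Closed c H) (hc : ∀ q : ℚ, c ≠ q)
    (hg : (fun _ x => x 0 * x 1 * fc c x) ∈ H) :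
    (∀ a b : ℕ, 25 ≤ 4 * a + 3 * b → e c a b 0 ∈ H) ∧ e c 3 4 0 ∈ H ∧
      (fun s x => e c 2 4 0 s x + c * e c 3 3 0 s x) ∈ H := by
  -- first order operators
  have hPx : (fun s x => x 1 * ((1 + s 0) * fc c x + (1 + s 2) * x 0 *
      (3 * x 0 ^ 2 + 2 * x 1 ^ 3 + 2 * c * x 0 * x 1 ^ 2))) ∈ H := by
    refine hH.congr _ (hH.dx _ hg) _ (fun x hx hy hf s => ?_)
    rw [act0, pd0_gen]
    field_simp
    ring
  have hPy : (fun s x => x 0 * ((1 + s 1) * fc c x + (1 + s 2) * x 1 *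
      (4 * x 1 ^ 3 + 6 * x 0 * x 1 ^ 2 + 2 * c * x 0 ^ 2 * x 1))) ∈ H := by
    refine hH.congr _ (hH.dy _ hg) _ (fun x hx hy hf s => ?_)
    rw [act1, pd1_gen]
    field_simp
    ring
  -- `x y (x f_x)` and `x y (y f_y)`
  have hfx : (fun _ x => x 0 * x 1 * (x 0 * (3 * x 0 ^ 2 + 2 * x 1 ^ 3 + 2 * c * x 0 * x 1 ^ 2)))
      ∈ H := by
    refine hH.cancel (X 2 + C 1) (unit_s2' hc)
      (hH.sub (hH.mulx _ hPx) (hH.smul (X 0 + C 1) _ hg)) (fun x _ _ _ s => ?_)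
    simp only [map_add, eval_X, eval_C]
    ring
  have hfy : (fun _ x => x 0 * x 1 *
      (x 1 * (4 * x 1 ^ 3 + 6 * x 0 * x 1 ^ 2 + 2 * c * x 0 ^ 2 * x 1))) ∈ H := by
    refine hH.cancel (X 2 + C 1) (unit_s2' hc)
      (hH.sub (hH.muly _ hPy) (hH.smul (X 1 + C 1) _ hg)) (fun x _ _ _ s => ?_)
    simp only [map_add, eval_X, eval_C]
    ring
  -- `x^4 y`
  have h41 : e c 4 1 0 ∈ H := by
    refine hH.congr _ (hH.sub (hH.sub (hH.const_mul 4 hg) hfx) hfy) _ (fun x _ _ _ s => ?_)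
    simp only [e, fc]
    ring
  have hv : (fun s x => e c 2 4 0 s x + c * e c 3 3 0 s x) ∈ H := by
    refine hH.congr _ (hH.const_mul (1 / 2) (hH.sub (hH.add _ (hH.const_mul 4 hfx) _
      (hH.const_mul 3 hfy)) (hH.const_mul 12 hg))) _ (fun x _ _ _ s => ?_)
    simp only [e, fc]
    ring
  have hw : (fun s x => e c 1 5 0 s x - c * e c 3 3 0 s x) ∈ H := by
    refine hH.congr _ (hH.sub (hH.const_mul (1 / 4) hfy) (hH.const_mul (3 / 2) hv)) _
      (fun x _ _ _ s => ?_)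
    simp only [e]
    ring
  have h34 : e c 3 4 0 ∈ H := by
    refine hH.congr _ (hH.sub (hH.mulx _ hv)
      (hH.const_mul c (hH.e_mono h41 (a' := 4) (b' := 3) (by norm_num) (by norm_num)))) _
      (fun x _ _ _ s => ?_)
    simp only [e]
    ring
  have h25 : e c 2 5 0 ∈ H := by
    refine hH.congr _ (hH.sub (hH.muly _ hv) (hH.const_mul c h34)) _ (fun x _ _ _ s => ?_)
    simp only [e]
    ring
  have h16 : e c 1 6 0 ∈ H := by
    refine hH.congr _ (hH.add _ (hH.muly _ hw) _ (hH.const_mul c h34)) _ (fun x _ _ _ s => ?_)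
    simp only [e]
    ring
  have h70 : e c 7 0 0 ∈ H := by
    have h44 := hH.smul ((X 1 + C 1) + C 4 * (X 2 + C 1)) _
      (hH.e_mono h41 (a' := 4) (b' := 4) (by norm_num) (by norm_num))
    have h53 := hH.smul (C 2 * (X 1 + C 1) + C 6 * (X 2 + C 1)) _
      (hH.e_mono h41 (a' := 5) (b' := 3) (by norm_num) (by norm_num))
    have h62 := hH.smul (C c * (X 1 + C 1) + C (2 * c) * (X 2 + C 1)) _
      (hH.e_mono h41 (a' := 6) (b' := 2) (by norm_num) (by norm_num))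
    refine hH.cancel (X 1 + C 1) (unit_s1 hc)
      (hH.sub (hH.sub (hH.sub (hH.mulx _ (hH.mulx _ (hH.mulx _ hPy))) h44) h53) h62)
      (fun x _ _ _ s => ?_)
    simp only [map_add, map_mul, eval_X, eval_C, e, fc]
    ring
  have h08 : e c 0 8 0 ∈ H := by
    have g34 := hH.smul ((X 0 + C 1) + C 3 * (X 2 + C 1)) _ h34
    have g17 := hH.smul (C 2 * (X 0 + C 1) + C 2 * (X 2 + C 1)) _ (hH.e_y h16)
    have g26 := hH.smul (C c * (X 0 + C 1) + C (2 * c) * (X 2 + C 1)) _ (hH.e_y h25)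
    refine hH.cancel (X 0 + C 1) (unit_s0 c)
      (hH.sub (hH.sub (hH.sub (hH.muly _ (hH.muly _ (hH.muly _ hPx))) g34) g17) g26)
      (fun x _ _ _ s => ?_)
    simp only [map_add, map_mul, eval_X, eval_C, e, fc]
    ring
  refine ⟨fun a b h => ?_, h34, hv⟩
  have hcases : (4 ≤ a ∧ 1 ≤ b) ∨ 7 ≤ a ∨ (3 ≤ a ∧ 4 ≤ b) ∨ (2 ≤ a ∧ 5 ≤ b) ∨ (1 ≤ a ∧ 6 ≤ b) ∨
      8 ≤ b := by omega
  rcases hcases with h | h | h | h | h | h
  · exact hH.e_mono h41 h.1 h.2
  · exact hH.e_mono h70 h (Nat.zero_le _)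
  · exact hH.e_mono h34 h.1 h.2
  · exact hH.e_mono h25 h.1 h.2
  · exact hH.e_mono h16 h.1 h.2
  · exact hH.e_mono h08 (Nat.zero_le _) h

/-- all weights at least 22 -/
theorem Closed.T22 (hH : Closed c H) (hc : ∀ q : ℚ, c ≠ q)
    (hg : (fun _ x => x 0 * x 1 * fc c x) ∈ H) : T c H 22 := by
  have h25 : T c H 25 := hH.pole hc (by norm_num) (hH.base hc hg).1
  have h24 : T c H 24 := hH.descend (by norm_num) h25
  have h23 : T c H 23 := hH.descend (by norm_num) h24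
  exact hH.descend (by norm_num) h23

/-- the special relation at weight 21 -/
theorem Closed.sigma (hH : Closed c H) (hc : ∀ q : ℚ, c ≠ q)
    (hg : (fun _ x => x 0 * x 1 * fc c x) ∈ H) :
    (fun s x => (s 1 + 4 - 2 * c) * e c 3 3 0 s x) ∈ H := by
  have hT := hH.T22 hc hg
  obtain ⟨h25, h34, hv⟩ := hH.base hc hg
  -- `∇_x (x μ)` and `∇_y (y μ)` for `μ = x^2 y^4 + c x^3 y^3`
  have hA : (fun s x => ((3 + s 0) * e c 2 4 0 s x + s 2 * (3 * e c 5 4 1 s x +
      2 * e c 3 7 1 s x + 2 * c * e c 4 6 1 s x)) + c * ((4 + s 0) * e c 3 3 0 s x +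
      s 2 * (3 * e c 6 3 1 s x + 2 * e c 4 6 1 s x + 2 * c * e c 5 5 1 s x))) ∈ H := by
    have h := hH.dx _ (hH.mulx _ hv)
    refine hH.congr _ h _ (fun x hx hy hf s => ?_)
    have h1 := act0_e c 2 4 0 s x hx hf
    have h2 := act0_e c 3 3 0 s x hx hf
    have hd1 : DifferentiableAt ℂ (fun t => e c 3 4 0 s (Function.update x 0 t)) (x 0) := by
      simp only [e, pow_zero, div_one]
      simp
    have hd2 : DifferentiableAt ℂ (fun t => e c 4 3 0 s (Function.update x 0 t)) (x 0) := by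
      simp only [e, pow_zero, div_one]
      simp
    have hsplit : act (Fc c) 0 (fun s x => x 0 * (e c 2 4 0 s x + c * e c 3 3 0 s x)) s x =
        act (Fc c) 0 (e c 3 4 0) s x + c * act (Fc c) 0 (e c 4 3 0) s x := by
      rw [act0, act0, act0]
      have hpd : pd 0 (fun x => x 0 * (e c 2 4 0 s x + c * e c 3 3 0 s x)) x =
          pd 0 (e c 3 4 0 s) x + c * pd 0 (e c 4 3 0 s) x := by
        have : (fun x : Fin 2 → ℂ => x 0 * (e c 2 4 0 s x + c * e c 3 3 0 s x)) =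
            fun x => e c 3 4 0 s x + c * e c 4 3 0 s x := by
          funext x
          simp only [e]
          ring
        rw [this]
        simp only [pd]
        rw [deriv_fun_add hd1 (hd2.const_mul c), deriv_const_mul_field]
      rw [hpd]
      simp only [e]
      ring
    rw [hsplit, h1, h2]
    push_cast
    ring
  have hB : (fun s x => ((5 + s 1) * e c 2 4 0 s x + s 2 * (4 * e c 2 8 1 s x +
      6 * e c 3 7 1 s x + 2 * c * e c 4 6 1 s x)) + c * ((4 + s 1) * e c 3 3 0 s x +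
      s 2 * (4 * e c 3 7 1 s x + 6 * e c 4 6 1 s x + 2 * c * e c 5 5 1 s x))) ∈ H := by
    have h := hH.dy _ (hH.muly _ hv)
    refine hH.congr _ h _ (fun x hx hy hf s => ?_)
    have h1 := act1_e c 2 4 0 s x hy hf
    have h2 := act1_e c 3 3 0 s x hy hf
    have hd1 : DifferentiableAt ℂ (fun t => e c 2 5 0 s (Function.update x 1 t)) (x 1) := by
      simp only [e, pow_zero, div_one]
      simp
    have hd2 : DifferentiableAt ℂ (fun t => e c 3 4 0 s (Function.update x 1 t)) (x 1) := by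
      simp only [e, pow_zero, div_one]
      simp
    have hsplit : act (Fc c) 1 (fun s x => x 1 * (e c 2 4 0 s x + c * e c 3 3 0 s x)) s x =
        act (Fc c) 1 (e c 2 5 0) s x + c * act (Fc c) 1 (e c 3 4 0) s x := by
      rw [act1, act1, act1]
      have hpd : pd 1 (fun x => x 1 * (e c 2 4 0 s x + c * e c 3 3 0 s x)) x =
          pd 1 (e c 2 5 0 s) x + c * pd 1 (e c 3 4 0 s) x := by
        have : (fun x : Fin 2 → ℂ => x 1 * (e c 2 4 0 s x + c * e c 3 3 0 s x)) =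
            fun x => e c 2 5 0 s x + c * e c 3 4 0 s x := by
          funext x
          simp only [e]
          ring
        rw [this]
        simp only [pd]
        rw [deriv_fun_add hd1 (hd2.const_mul c), deriv_const_mul_field]
      rw [hpd]
      simp only [e]
      ring
    rw [hsplit, h1, h2]
    push_cast
    ring
  have hB2 := hH.relB (a := 3) (b := 3) (k := 0) h34
  have h461 : e c 4 6 1 ∈ H := hT _ _ _ (by norm_num)
  have h551 : e c 5 5 1 ∈ H := hT _ _ _ (by norm_num)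
  have h461' := hH.smul (X 2) _ h461
  have h551' := hH.smul (X 2) _ h551
  have hv' := hH.smul (C 4 * X 0 + C 3 * X 1 + C 12 * X 2 + C 27) _ hv
  -- `4 A + 3 B - (N + 27) μ = c x^3 y^3 + 2 s_2 x^3 y^7 / f + …`
  have h1 : (fun s x => c * e c 3 3 0 s x + 2 * s 2 * e c 3 7 1 s x + s 2 * (4 * c * e c 4 6 1 s x +
      2 * c ^ 2 * e c 5 5 1 s x)) ∈ H := by
    refine hH.congr _ (hH.sub (hH.add _ (hH.const_mul 4 hA) _ (hH.const_mul 3 hB)) hv') _
      (fun x _ _ hf s => ?_)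
    have hup1 := e_up c 2 4 0 s x hf
    have hup2 := e_up c 3 3 0 s x hf
    simp only [map_add, map_mul, eval_X, eval_C]
    linear_combination (-12 * s 2) * hup1 - (12 * c * s 2) * hup2
  refine hH.congr _ (hH.sub (hH.sub hB2 (hH.const_mul 2 h1)) (hH.sub
    (hH.const_mul (6 - 8 * c) h461') (hH.const_mul (4 * c ^ 2 - 2 * c) h551'))) _
      (fun x _ _ hf s => ?_)
  simp only [eval_X]
  push_cast
  ring

theorem Closed.T21_sigma (hH : Closed c H) (hc : ∀ q : ℚ, c ≠ q)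
    (hg : (fun _ x => x 0 * x 1 * fc c x) ∈ H) :
    T c (colon H (X 1 + C (4 - 2 * c))) 21 := by
  have hH' := closed_colon hH (X 1 + C (4 - 2 * c))
  have hT := hH.T22 hc hg
  have h33 : e c 3 3 0 ∈ colon H (X 1 + C (4 - 2 * c)) := by
    refine hH.congr _ (hH.sigma hc hg) _ (fun x _ _ _ s => ?_)
    simp only [map_add, eval_X, eval_C]
    ring
  have h07 : e c 0 7 0 ∈ colon H (X 1 + C (4 - 2 * c)) := by
    have hA := hH.relA (a := 0) (b := 7) (k := 0) (hT _ _ _ (by norm_num))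
    have hB := hH.relB (a := 3) (b := 3) (k := 0) (hH.base hc hg).2.1
    have g1 := hH.smul (X 2) _ (hT 1 1 10 (by norm_num))
    have g2 := hH.smul (X 2) _ (hT 1 2 9 (by norm_num))
    have g3 := hH.smul (X 2) _ (hT 1 4 6 (by norm_num))
    have g4 := hH.smul (X 2) _ (hT 1 5 5 (by norm_num))
    have hk := hH.sub (hH.const_mul 4 hA) (hH.const_mul 3 hB)
    have hk2 := hH.sub (hH.sub hk (hH.const_mul 8 g1)) (hH.const_mul (8 * c) g2)
    have hk3 := hH.add _ (hH.add _ hk2 _ (hH.const_mul 18 g3)) _ (hH.const_mul (6 * c) g4)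
    have hk4 := le_colon hH (X 1 + C (4 - 2 * c)) hk3
    have hk5 := hH'.smul (C 3 * (C 4 + X 1)) _ h33
    refine hH'.cancel (C 4 * (X 0 + C 1)) ?_ (hH'.add _ hk4 _ hk5) (fun x _ _ hf s => ?_)
    · rw [map_mul, eval_C]
      exact mul_ne_zero (by norm_num) (unit_s0 c)
    · simp only [map_add, map_mul, eval_X, eval_C]
      push_cast
      ring
  refine hH'.pole hc (by norm_num) (fun a b h => ?_)
  rcases Nat.lt_or_ge 21 (4 * a + 3 * b) with h' | h'
  · exact le_colon hH _ (hT 0 a b (by omega))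
  · have : (a = 0 ∧ b = 7) ∨ (a = 3 ∧ b = 3) := by omega
    rcases this with ⟨rfl, rfl⟩ | ⟨rfl, rfl⟩
    · exact h07
    · exact h33

theorem Closed.T21_N (hH : Closed c H) (hc : ∀ q : ℚ, c ≠ q)
    (hg : (fun _ x => x 0 * x 1 * fc c x) ∈ H) :
    T c (colon H (C 4 * X 0 + C 3 * X 1 + C 12 * X 2 + C 28)) 21 := by
  have hT := hH.T22 hc hg
  intro k a b h
  rcases Nat.lt_or_ge (21 + 12 * k) (4 * a + 3 * b) with h' | h'
  · exact le_colon hH _ (hT k a b (by omega))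
  · refine hH.congr _ (hH.euler (k := k) (a := a) (b := b) hT (by omega)) _ (fun x _ _ _ s => ?_)
    simp only [map_add, map_mul, eval_X, eval_C]
    push_cast
    ring

/-- the two elements of the Bernstein-Sato ideal, up to units at `s1` -/
theorem exists_mem (hc : ∀ q : ℚ, c ≠ q) (τ : MvPolynomial (Fin 3) ℂ)
    (hτ : T c (colon (GS c) τ) 21) :
    ∃ q : MvPolynomial (Fin 3) ℂ, eval (s1 c) q ≠ 0 ∧
      ∀ p, InD (Fc c) p (fun s _ => eval s (q * τ)) := by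
  have h0 := (closed_colon (closed_GS c) τ).descend' le_rfl hτ 0 0 0 (by norm_num)
  obtain ⟨q, hq, h⟩ := h0
  refine ⟨q, hq, fun p => InD.congr (Filter.Eventually.of_forall fun x _ s => ?_) (h p)⟩
  simp [e]

theorem gen_mem (c : ℂ) : (fun _ x => x 0 * x 1 * fc c x) ∈ GS c := by
  refine ⟨1, by simp, fun p => InD.congr (Filter.Eventually.of_forall fun x _ s => ?_) InD.gen⟩
  rw [prod_Fc]
  simp

theorem exists_sigma (hc : ∀ q : ℚ, c ≠ q) :
    ∃ q : MvPolynomial (Fin 3) ℂ, eval (s1 c) q ≠ 0 ∧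
      ∀ p, InD (Fc c) p (fun s _ => eval s (q * (X 1 + C (4 - 2 * c)))) :=
  exists_mem hc _ ((closed_GS c).T21_sigma hc (gen_mem c))

theorem exists_N (hc : ∀ q : ℚ, c ≠ q) :
    ∃ q : MvPolynomial (Fin 3) ℂ, eval (s1 c) q ≠ 0 ∧
      ∀ p, InD (Fc c) p (fun s _ => eval s (q * (C 4 * X 0 + C 3 * X 1 + C 12 * X 2 + C 28))) :=
  exists_mem hc _ ((closed_GS c).T21_N hc (gen_mem c))

end Pool.Agent.W459.BS
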