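import Pool.Agent.W459.BS.Alg

set_option autoImplicit false

open scoped Topology
open MvPolynomial

namespace Pool.Agent.W459.BS

variable {c : ℂ} {H : Set Fn}

theorem Closed.const_mul (hH : Closed c H) (w : ℂ) {g : Fn} (hg : g ∈ H) :
    (fun s x => w * g s x) ∈ H := by
  refine hH.congr _ (hH.smul (C w) _ hg) _ (fun x _ _ _ s => ?_)
  simp

theorem Closed.sub (hH : Closed c H) {g h : Fn} (hg : g ∈ H) (hh : h ∈ H) :
    (fun s x => g s x - h s x) ∈ H := by
  refine hH.congr _ (hH.add _ hg _ (hH.const_mul (-1) hh)) _ (fun x _ _ _ s => ?_)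
  ring

/-- cancel a unit -/
theorem Closed.cancel (hH : Closed c H) (q : MvPolynomial (Fin 3) ℂ) (hq : eval (s1 c) q ≠ 0)
    {g h : Fn} (hh : h ∈ H)
    (hgh : ∀ x : Fin 2 → ℂ, x 0 ≠ 0 → x 1 ≠ 0 → fc c x ≠ 0 → ∀ s, h s x = eval s q * g s x) :
    g ∈ H :=
  hH.unit q hq _ (hH.congr _ hh _ hgh)

theorem Closed.relA (hH : Closed c H) {a b k : ℕ} (h : e c (a + 1) b k ∈ H) :
    (fun s x => ((a : ℂ) + 1 + s 0) * e c a b k s x +
      (s 2 - k) * (3 * e c (a + 3) b (k + 1) s x + 2 * e c (a + 1) (b + 3) (k + 1) s x +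
        2 * c * e c (a + 2) (b + 2) (k + 1) s x)) ∈ H :=
  hH.congr _ (hH.dx _ h) _ (fun x hx _ hf s => act0_e c a b k s x hx hf)

theorem Closed.relB (hH : Closed c H) {a b k : ℕ} (h : e c a (b + 1) k ∈ H) :
    (fun s x => ((b : ℂ) + 1 + s 1) * e c a b k s x +
      (s 2 - k) * (4 * e c a (b + 4) (k + 1) s x + 6 * e c (a + 1) (b + 3) (k + 1) s x +
        2 * c * e c (a + 2) (b + 2) (k + 1) s x)) ∈ H :=
  hH.congr _ (hH.dy _ h) _ (fun x _ hy hf s => act1_e c a b k s x hy hf)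

theorem Closed.e_x (hH : Closed c H) {a b k : ℕ} (h : e c a b k ∈ H) : e c (a + 1) b k ∈ H := by
  refine hH.congr _ (hH.mulx _ h) _ (fun x _ _ _ s => ?_)
  simp only [e]; ring

theorem Closed.e_y (hH : Closed c H) {a b k : ℕ} (h : e c a b k ∈ H) : e c a (b + 1) k ∈ H := by
  refine hH.congr _ (hH.muly _ h) _ (fun x _ _ _ s => ?_)
  simp only [e]; ring

theorem Closed.e_mono (hH : Closed c H) {a b k : ℕ} (h : e c a b k ∈ H) {a' b' : ℕ}
    (ha : a ≤ a') (hb : b ≤ b') : e c a' b' k ∈ H := by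
  obtain ⟨i, rfl⟩ := Nat.exists_eq_add_of_le ha
  obtain ⟨j, rfl⟩ := Nat.exists_eq_add_of_le hb
  have h1 : e c (a + i) b k ∈ H := by
    induction i with
    | zero => exact h
    | succ i ih => exact hH.e_x (ih (by omega))
  induction j with
  | zero => exact h1
  | succ j ih => exact hH.e_y (ih (by omega))

/-- all elements of weight at least `w` are in `H` -/
def T (c : ℂ) (H : Set Fn) (w : ℕ) : Prop :=
  ∀ k a b : ℕ, w + 12 * k ≤ 4 * a + 3 * b → e c a b k ∈ H

theorem unit_s2 (hc : ∀ q : ℚ, c ≠ q) (k : ℕ) : eval (s1 c) (X 2 - C (k : ℂ)) ≠ 0 := by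
  simp only [map_sub, eval_X, eval_C, s1]
  intro h
  apply hc (-2 * k)
  have h' : -c / 2 - k = 0 := h
  push_cast
  linear_combination -2 * h'

/-- reduction of the pole order -/
theorem Closed.pole (hH : Closed c H) (hc : ∀ q : ℚ, c ≠ q) {w : ℕ} (hw : 6 ≤ w)
    (h0 : ∀ a b : ℕ, w ≤ 4 * a + 3 * b → e c a b 0 ∈ H) : T c H w := by
  intro k
  induction k with
  | zero => intro a b h; exact h0 a b (by omega)
  | succ k ih =>
    have h3 : ∀ a b : ℕ, w + 12 * k ≤ 4 * a + 3 * b → e c (a + 3) b (k + 1) ∈ H := by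
      intro a b h
      have hm := ih a b h
      have hA := hH.relA (hH.e_x hm)
      have hB := hH.relB (hH.e_y hm)
      have h1 := hH.smul (C (4 : ℂ) * (X 2 - C (k : ℂ)) + (C ((a : ℂ) + 1) + X 0) +
        (C ((b : ℂ) + 1) + X 1)) _ hm
      refine hH.cancel (X 2 - C (k : ℂ)) (unit_s2 hc k) (hH.sub (hH.sub h1 hA) hB) ?_
      intro x _ _ hf s
      simp only [map_add, map_sub, map_mul, eval_X, eval_C]
      rw [e_up c a b k s x hf]
      ring
    have hstep : ∀ a b : ℕ, w + 12 * k ≤ 4 * a + 3 * b → e c (a + 1) (b + 3) (k + 1) ∈ H →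
        e c (a + 2) (b + 2) (k + 1) ∈ H → e c a (b + 4) (k + 1) ∈ H := by
      intro a b h h1 h2
      have hm := ih a b h
      have hB := hH.relB (hH.e_y hm)
      have hm' := hH.smul (C ((b : ℂ) + 1) + X 1) _ hm
      have h1' := hH.smul ((X 2 - C (k : ℂ)) * C 6) _ h1
      have h2' := hH.smul ((X 2 - C (k : ℂ)) * C (2 * c)) _ h2
      refine hH.cancel ((X 2 - C (k : ℂ)) * C 4) ?_
        (hH.sub (hH.sub (hH.sub hB hm') h1') h2') ?_
      · rw [map_mul, eval_C]
        exact mul_ne_zero (unit_s2 hc k) (by norm_num)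
      · intro x _ _ hf s
        simp only [map_add, map_sub, map_mul, eval_X, eval_C]
        ring
    have g3 : ∀ a b : ℕ, 3 ≤ a → w + 12 * (k + 1) ≤ 4 * a + 3 * b → e c a b (k + 1) ∈ H := by
      intro a b ha h
      obtain ⟨a', rfl⟩ := Nat.exists_eq_add_of_le' ha
      exact h3 a' b (by omega)
    have g2 : ∀ b : ℕ, w + 12 * (k + 1) ≤ 4 * 2 + 3 * b → e c 2 b (k + 1) ∈ H := by
      intro b h
      obtain ⟨b', rfl⟩ : ∃ b', b = b' + 4 := ⟨b - 4, by omega⟩
      exact hstep 2 b' (by omega) (g3 _ _ (by omega) (by omega)) (g3 _ _ (by omega) (by omega))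
    have g1 : ∀ b : ℕ, w + 12 * (k + 1) ≤ 4 * 1 + 3 * b → e c 1 b (k + 1) ∈ H := by
      intro b h
      obtain ⟨b', rfl⟩ : ∃ b', b = b' + 4 := ⟨b - 4, by omega⟩
      exact hstep 1 b' (by omega) (g2 _ (by omega)) (g3 _ _ (by omega) (by omega))
    have g0 : ∀ b : ℕ, w + 12 * (k + 1) ≤ 4 * 0 + 3 * b → e c 0 b (k + 1) ∈ H := by
      intro b h
      obtain ⟨b', rfl⟩ : ∃ b', b = b' + 4 := ⟨b - 4, by omega⟩
      exact hstep 0 b' (by omega) (g1 _ (by omega)) (g2 _ (by omega))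
    intro a b h
    rcases a with _ | _ | _ | a
    · exact g0 b h
    · exact g1 b h
    · exact g2 b h
    · exact g3 _ b (by omega) h

/-- the Euler relation -/
theorem Closed.euler (hH : Closed c H) {w k a b : ℕ} (hT : T c H (w + 1))
    (hw : 4 * a + 3 * b = w + 12 * k) :
    (fun s x => (4 * s 0 + 3 * s 1 + 12 * s 2 + 7 + w) * e c a b k s x) ∈ H := by
  have hx : e c (a + 1) b k ∈ H := hT _ _ _ (by omega)
  have hy : e c a (b + 1) k ∈ H := hT _ _ _ (by omega)
  have h1 : e c (a + 1) (b + 3) (k + 1) ∈ H := hT _ _ _ (by omega)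
  have h2 : e c (a + 2) (b + 2) (k + 1) ∈ H := hT _ _ _ (by omega)
  have hA := hH.const_mul 4 (hH.relA hx)
  have hB := hH.const_mul 3 (hH.relB hy)
  have h1' := hH.smul ((X 2 - C (k : ℂ)) * C 2) _ h1
  have h2' := hH.smul ((X 2 - C (k : ℂ)) * C (2 * c)) _ h2
  refine hH.congr _ (hH.sub (hH.sub (hH.add _ hA _ hB) h1') h2') _ (fun x _ _ hf s => ?_)
  simp only [map_add, map_sub, map_mul, eval_X, eval_C]
  have hw' : (4 : ℂ) * a + 3 * b = w + 12 * k := by exact_mod_cast hw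
  have hup := e_up c a b k s x hf
  linear_combination (e c a b k s x) * hw' - 12 * (s 2 - k) * hup

theorem Closed.descend (hH : Closed c H) {w : ℕ} (hw : w ≠ 21) (hT : T c H (w + 1)) :
    T c H w := by
  intro k a b h
  rcases Nat.lt_or_ge (w + 12 * k) (4 * a + 3 * b) with h' | h'
  · exact hT k a b (by omega)
  · have h1 := hH.euler (k := k) (a := a) (b := b) hT (by omega)
    refine hH.cancel (C 4 * X 0 + C 3 * X 1 + C 12 * X 2 + C (7 + (w : ℂ))) ?_ h1 ?_
    · simp only [map_add, map_mul, eval_X, eval_C, s1]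
      change (4 : ℂ) * (-4) + 3 * (2 * c - 4) + 12 * (-c / 2) + (7 + w) ≠ 0
      intro h2
      apply hw
      have h3 : (w : ℂ) = 21 := by linear_combination h2
      exact_mod_cast h3
    · intro x _ _ _ s
      simp only [map_add, map_mul, eval_X, eval_C]
      ring

theorem Closed.descend' (hH : Closed c H) {w : ℕ} (hw : w ≤ 21) (hT : T c H w) : T c H 0 := by
  induction w with
  | zero => exact hT
  | succ w ih => exact ih (by omega) (hH.descend (by omega) hT)

end Pool.Agent.W459.BS
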